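import Pool.Agent.NH4.XG.Stm
import Pool.Agent.NH3.XE.BOX

/-! XG-BOX: the joint count in a box (adapted from `Pool.Agent.NH4.XJ.BOX` and `Pool.Agent.NH3.XE.BOX`). -/

set_option autoImplicit false

open scoped Classical

namespace Pool.Agent.NH4.XG.BX

open Finset
open Pool.Agent.Y703.CQ (nr prs HB S_EQ)
open Pool.Agent.NH5.PR (ex2)
open Pool.Agent.NH3.XD (Nd)
open Pool.Agent.NH3.XE (Dat tt)
open Pool.Agent.NH3.XE.BX (Lb lb LN dt nd_iff)
open Pool.Agent.NH3.XD.BX (b4 two_self recip HB_sub odd_cases)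
open Pool.Agent.NH4.PJ (Wm)
open Pool.Agent.NH4.PJ.BX (pt mem_pt sum_pt add_pt sd_un ind ind_inj z2)
open Pool.Agent.NH4.XJ.BX (b4_eq)

/-- the product of odd numbers modulo `4` -/
theorem prod_mod (T : Finset ℕ) (h : ∀ q ∈ T, q % 4 = 1 ∨ q % 4 = 3) :
    ((∏ q ∈ T, q) % 4 = 3 ∧ ∑ q ∈ T, b4 q = 1) ∨ ((∏ q ∈ T, q) % 4 = 1 ∧ ∑ q ∈ T, b4 q = 0) := by
  induction T using Finset.induction_on with
  | empty => right; simp
  | insert a T ha ih =>
    rw [Finset.prod_insert ha, Finset.sum_insert ha]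
    have h1 := ih fun q hq => h q (Finset.mem_insert_of_mem hq)
    have h2 := h a (Finset.mem_insert_self _ _)
    have b1 : a % 4 = 1 → b4 a = 0 := fun h => by unfold b4; rw [if_neg (by omega)]
    have b3 : a % 4 = 3 → b4 a = 1 := fun h => by unfold b4; rw [if_pos h]
    rcases h1 with ⟨h1, h1'⟩ | ⟨h1, h1'⟩ <;> rcases h2 with h2 | h2
    · left
      rw [Nat.mul_mod, h1, h2, h1', b1 h2]
      simp
    · right
      rw [Nat.mul_mod, h1, h2, h1', b3 h2]
      exact ⟨by norm_num, by decide⟩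
    · right
      rw [Nat.mul_mod, h1, h2, h1', b1 h2]
      simp
    · left
      rw [Nat.mul_mod, h1, h2, h1', b3 h2]
      exact ⟨by norm_num, by decide⟩

/-- the exponent of `2` -/
noncomputable def te (S : Finset ℕ) : ZMod 2 := if 2 ∈ S then 1 else 0

theorem te_one {S : Finset ℕ} (h : 2 ∈ S) : te S = 1 := by unfold te; rw [if_pos h]

theorem te_zero {S : Finset ℕ} (h : 2 ∉ S) : te S = 0 := by unfold te; rw [if_neg h]

/-- the sum over a set which may contain `2` -/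
theorem sum_te (S : Finset ℕ) (f : ℕ → ZMod 2) :
    ∑ q ∈ S, f q = ∑ q ∈ S.erase 2, f q + te S * f 2 := by
  by_cases h : 2 ∈ S
  · rw [te_one h, one_mul, ← Finset.add_sum_erase S f h, add_comm]
  · rw [te_zero h, zero_mul, add_zero, Finset.erase_eq_of_notMem h]

section one
variable {ι : Type} [Fintype ι] [LinearOrder ι] {J3 : Finset ι} {S₁ S T : Finset ℕ} {p : ι → ℕ}

omit [LinearOrder ι] in
theorem sum_T (hT : T ⊆ S₁) (hp : Function.Injective p) (hd : ∀ i, p i ∉ S₁) (h : ℕ → ZMod 2) :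
    ∑ x ∈ T ∪ univ.image p, h x = ∑ u ∈ pt S₁ T, h u + ∑ l, h (p l) := by
  rw [Finset.sum_union, Finset.sum_image (fun a _ b _ h => hp h), sum_pt hT]
  rw [Finset.disjoint_left]
  intro x hx hx'
  rw [Finset.mem_image] at hx'
  obtain ⟨i, -, rfl⟩ := hx'
  exact hd i (hT hx)

omit [LinearOrder ι] in
theorem row_eq (hT : T ⊆ S₁) (hp : Function.Injective p) (hd : ∀ i, p i ∉ S₁)
    (hS : S.erase 2 = T ∪ univ.image p) (y : ℕ) (x : ℕ → ZMod 2) :
    ∑ q ∈ S, nr y q * (x q + x y) + (if 2 ∈ S then 0 else nr y 2 * x 2) =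
      ∑ u ∈ pt S₁ T, nr y u * (x u + x y) + ∑ l, nr y (p l) * (x (p l) + x y) +
        nr y 2 * (x 2 + te S * x y) := by
  rw [sum_te S, hS, sum_T hT hp hd]
  by_cases h : 2 ∈ S
  · rw [if_pos h, te_one h]
    ring
  · rw [if_neg h, te_zero h]
    ring

theorem sol_iff (hT : T ⊆ S₁) (hp : Function.Injective p) (hpr : ∀ i, (p i).Prime ∧ p i ≠ 2)
    (hd : ∀ i, p i ∉ S₁) (h3 : ∀ i, i ∈ J3 ↔ p i % 4 = 3) (hS : S.erase 2 = T ∪ univ.image p)
    (x : ℕ → ZMod 2) :
    SolG S x ↔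
      (∀ u ∈ pt S₁ T, ∑ v ∈ pt S₁ T, (dt S₁ J3 fun i => lb S₁ (p i)).A u v * (x v + x u) +
        ∑ l, (dt S₁ J3 fun i => lb S₁ (p i)).B u l * (x (p l) + x u) +
        (dt S₁ J3 fun i => lb S₁ (p i)).cU u * (x 2 + te S * x u) = 0) ∧
      ∀ k, ∑ u ∈ pt S₁ T, (dt S₁ J3 fun i => lb S₁ (p i)).C k u * (x u + x (p k)) +
        ∑ l, ex2 (tt (dt S₁ J3 fun i => lb S₁ (p i)))
          (fun e : prs (univ : Finset ι) => nr (p e.1.2) (p e.1.1)) k l * (x (p l) + x (p k)) +
        (dt S₁ J3 fun i => lb S₁ (p i)).cJ k * (x 2 + te S * x (p k)) = 0 := by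
  have hsum : ∀ k : ι,
      ∑ l, ex2 (tt (dt S₁ J3 (fun i => lb S₁ (p i))))
        (fun e : prs (univ : Finset ι) => nr (p e.1.2) (p e.1.1)) k l * (x (p l) + x (p k)) =
      ∑ l, nr (p k) (p l) * (x (p l) + x (p k)) := by
    intro k
    refine Finset.sum_congr rfl fun l _ => ?_
    by_cases hkl : k = l
    · subst hkl
      rw [two_self, mul_zero, mul_zero]
    · rw [Pool.Agent.NH3.XE.BX.ex2_eq hp hpr h3 hkl]
  unfold SolG
  rw [hS]
  constructor
  · intro h
    refine ⟨fun u hu => ?_, fun k => ?_⟩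
    · have := h u (Finset.mem_union_left _ ((mem_pt u).1 hu))
      rw [row_eq hT hp hd hS] at this
      exact this
    · have := h (p k) (Finset.mem_union_right _ (Finset.mem_image_of_mem _ (Finset.mem_univ _)))
      rw [row_eq hT hp hd hS] at this
      rw [hsum k]
      exact this
  · rintro ⟨h1, h2⟩ y hy
    rw [row_eq hT hp hd hS]
    rw [Finset.mem_union, Finset.mem_image] at hy
    rcases hy with hy | ⟨k, -, rfl⟩
    · exact h1 ⟨y, hT hy⟩ ((mem_pt _).2 hy)
    · have := h2 k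
      rw [hsum k] at this
      exact this

/-- the sets of ramified primes -/
theorem ram_iff (hT : T ⊆ S₁) (hp : Function.Injective p)
    (hS₁ : ∀ u ∈ S₁, u.Prime ∧ u ≠ 2) (hpr : ∀ i, (p i).Prime ∧ p i ≠ 2)
    (hd : ∀ i, p i ∉ S₁) (h3 : ∀ i, i ∈ J3 ↔ p i % 4 = 3) (hS : S.erase 2 = T ∪ univ.image p)
    (Q : Finset ℕ) :
    Q ⊆ Ram S ↔ (∀ q ∈ Q, q ≠ 2 → q ∈ T ∪ univ.image p) ∧
      (te S = 0 → ∑ u ∈ pt S₁ T, (dt S₁ J3 fun i => lb S₁ (p i)).bU u +
        ∑ l, (dt S₁ J3 fun i => lb S₁ (p i)).bJ l = 1 → 2 ∉ Q) := by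
  have hpar : ∑ u ∈ pt S₁ T, (dt S₁ J3 fun i => lb S₁ (p i)).bU u +
      ∑ l, (dt S₁ J3 fun i => lb S₁ (p i)).bJ l = ∑ q ∈ S.erase 2, b4 q := by
    rw [hS, sum_T hT hp hd]
    congr 1
    exact Finset.sum_congr rfl fun l _ => b4_eq h3 l
  rw [hpar]
  have hodd : ∀ q ∈ S.erase 2, q % 4 = 1 ∨ q % 4 = 3 := by
    intro q hq
    rw [hS, Finset.mem_union, Finset.mem_image] at hq
    rcases hq with hq | ⟨k, -, rfl⟩
    · exact odd_cases (hS₁ q (hT hq)).1 (hS₁ q (hT hq)).2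
    · exact odd_cases (hpr k).1 (hpr k).2
  have hm := prod_mod _ hodd
  unfold Ram
  by_cases h : (∏ q ∈ S, q) % 4 = 3
  · rw [if_pos h]
    have h2 : 2 ∉ S := by
      intro h2
      have : 2 ∣ ∏ q ∈ S, q := Finset.dvd_prod_of_mem (fun q => q) h2
      omega
    have he : S.erase 2 = S := Finset.erase_eq_of_notMem h2
    rw [he] at hm
    have hb : ∑ q ∈ S.erase 2, b4 q = 1 := by
      rw [he]
      rcases hm with hm | hm
      · exact hm.2
      · omega
    rw [← hS, he]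
    rw [he] at hb
    constructor
    · intro hQ
      exact ⟨fun q hq _ => hQ hq, fun _ _ h' => h2 (hQ h')⟩
    · rintro ⟨g1, g2⟩ q hq
      refine g1 q hq ?_
      rintro rfl
      exact g2 (te_zero h2) hb hq
  · rw [if_neg h, ← hS]
    constructor
    · intro hQ
      refine ⟨fun q hq hq2 => ?_, fun g1 g2 => ?_⟩
      · have := hQ hq
        rw [Finset.mem_insert] at this
        rcases this with h' | h'
        · exact absurd h' hq2
        · exact Finset.mem_erase.2 ⟨hq2, h'⟩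
      · exfalso
        have h2 : 2 ∉ S := by
          intro h2
          rw [te_one h2] at g1
          exact one_ne_zero g1
        rw [Finset.erase_eq_of_notMem h2] at hm g2
        rcases hm with hm | hm
        · exact h hm.1
        · rw [hm.2] at g2
          exact zero_ne_one g2
    · rintro ⟨g1, -⟩ q hq
      rw [Finset.mem_insert]
      by_cases hq2 : q = 2
      · exact Or.inl hq2
      · exact Or.inr (Finset.mem_of_mem_erase (g1 q hq hq2))

end one

section gen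
variable {U J : Type} [Fintype U] [Fintype J] [LinearOrder J]

theorem nG_bij {A : Type} (s : Finset A) (d : Dat U J) (θ : ZMod 2) (mm : Finset U)
    (α : prs (univ : Finset J) → ZMod 2) (i : ∀ a ∈ s, ZMod 2 × (U → ZMod 2) × (J → ZMod 2))
    (h1 : ∀ a ha, AllG d θ mm α (i a ha))
    (h2 : ∀ a ha b hb, i a ha = i b hb → a = b)
    (h3 : ∀ z, AllG d θ mm α z → ∃ a ha, i a ha = z) :
    s.card = nG d θ mm α := by
  unfold nG
  refine Finset.card_bij i ?_ ?_ ?_
  · intro a ha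
    exact Finset.mem_filter.2 ⟨Finset.mem_univ _, h1 a ha⟩
  · intro a ha b hb
    exact h2 a ha b hb
  · intro z hz
    exact h3 z (Finset.mem_filter.1 hz).2

end gen

section two
variable {ι : Type} [Fintype ι] [LinearOrder ι] {J3 : Finset ι} {S₁ S T : Finset ℕ} {p : ι → ℕ}

/-- the number of the elements of the kernel -/
theorem nx_eq (hT : T ⊆ S₁) (hp : Function.Injective p)
    (hS₁ : ∀ u ∈ S₁, u.Prime ∧ u ≠ 2) (hpr : ∀ i, (p i).Prime ∧ p i ≠ 2)
    (hd : ∀ i, p i ∉ S₁) (h3 : ∀ i, i ∈ J3 ↔ p i % 4 = 3) (hS : S.erase 2 = T ∪ univ.image p) :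
    nx S = nG (dt S₁ J3 fun i => lb S₁ (p i)) (te S) (pt S₁ T)
      (fun e : prs (univ : Finset ι) => nr (p e.1.2) (p e.1.1)) := by
  unfold nx
  have h2S : 2 ∉ S₁ := fun h => (hS₁ 2 h).2 rfl
  have him : ∀ k, p k ∈ T ∪ univ.image p := fun k =>
    Finset.mem_union_right _ (Finset.mem_image_of_mem _ (Finset.mem_univ _))
  refine nG_bij _ _ _ _ _ (fun Q _ => (ind Q 2, fun u : S₁ => ind Q u, fun l => ind Q (p l)))
    ?_ ?_ ?_
  · intro Q hQ
    rw [Finset.mem_filter, Finset.mem_powerset] at hQ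
    obtain ⟨hQ1, hQ2⟩ := hQ
    rw [ram_iff hT hp hS₁ hpr hd h3 hS] at hQ1
    obtain ⟨g1, g2⟩ := hQ1
    have hx : ∀ u ∈ S₁, u ∉ T → ind Q u = 0 := by
      intro u hu huT
      unfold ind
      rw [if_neg]
      intro huQ
      have := g1 u huQ (hS₁ u hu).2
      rw [Finset.mem_union, Finset.mem_image] at this
      rcases this with h | ⟨k, -, rfl⟩
      · exact huT h
      · exact hd k hu
    have hs := (sol_iff hT hp hpr hd h3 hS (ind Q)).1 hQ2
    refine ⟨fun hθ hb => ?_, fun u hu => hx u u.2 fun h8 => hu ((mem_pt u).2 h8), hs.1, hs.2⟩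
    show ind Q 2 = 0
    unfold ind
    rw [if_neg (g2 hθ hb)]
  · intro Q hQ Q' hQ' he
    rw [Finset.mem_filter, Finset.mem_powerset, ram_iff hT hp hS₁ hpr hd h3 hS] at hQ hQ'
    rw [Prod.mk.injEq, Prod.mk.injEq] at he
    obtain ⟨he0, he1, he2⟩ := he
    apply ind_inj
    intro q
    by_cases hq2 : q = 2
    · rw [hq2]
      exact he0
    by_cases hq : q ∈ T ∪ univ.image p
    · rw [Finset.mem_union, Finset.mem_image] at hq
      rcases hq with h | ⟨k, -, rfl⟩
      · exact congrFun he1 ⟨q, hT h⟩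
      · exact congrFun he2 k
    · unfold ind
      rw [if_neg fun h => hq (hQ.1.1 q h hq2), if_neg fun h => hq (hQ'.1.1 q h hq2)]
  · rintro ⟨w, c, d⟩ hA
    obtain ⟨hA1, hA2, hA3, hA4⟩ := hA
    simp only at hA1 hA2 hA3 hA4
    set c' : ℕ → ZMod 2 := fun n => if n = 2 then w else if h : n ∈ S₁ then c ⟨n, h⟩ else
      if h : ∃ l, p l = n then d h.choose else 0 with hc'
    have e0 : c' 2 = w := by
      simp only [hc']
      rw [if_pos trivial]
    have e1 : ∀ u : S₁, c' u = c u := by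
      intro u
      simp only [hc']
      rw [if_neg (hS₁ u u.2).2, dif_pos u.2]
    have e2 : ∀ l, c' (p l) = d l := by
      intro l
      have hex : ∃ l', p l' = p l := ⟨l, rfl⟩
      simp only [hc']
      rw [if_neg (hpr l).2, dif_neg (hd l), dif_pos hex]
      exact congrArg d (hp hex.choose_spec)
    set Q : Finset ℕ := (insert 2 (T ∪ univ.image p)).filter fun q => c' q = 1 with hQ
    have hcT : ∀ u : S₁, (u : ℕ) ∉ T → c u = 0 := fun u hu => hA2 u fun h => hu ((mem_pt u).1 h)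
    have f0 : ind Q 2 = w := by
      unfold ind
      have : 2 ∈ Q ↔ w = 1 := by
        rw [hQ, Finset.mem_filter, e0]
        exact ⟨fun h => h.2, fun h => ⟨Finset.mem_insert_self _ _, h⟩⟩
      simp only [this]
      exact z2 _
    have f1 : ∀ u : S₁, ind Q u = c u := by
      intro u
      unfold ind
      by_cases huT : (u : ℕ) ∈ T
      · have : (u : ℕ) ∈ Q ↔ c u = 1 := by
          rw [hQ, Finset.mem_filter, e1]
          exact ⟨fun h => h.2, fun h => ⟨Finset.mem_insert_of_mem (Finset.mem_union_left _ huT), h⟩⟩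
        simp only [this]
        exact z2 _
      · rw [if_neg, hcT u huT]
        intro h
        have := (Finset.mem_filter.1 h).1
        rw [Finset.mem_insert, Finset.mem_union, Finset.mem_image] at this
        rcases this with h | h | ⟨k, -, hk⟩
        · exact (hS₁ u u.2).2 h
        · exact huT h
        · exact hd k (by rw [hk]; exact u.2)
    have f2 : ∀ l, ind Q (p l) = d l := by
      intro l
      unfold ind
      have : p l ∈ Q ↔ d l = 1 := by
        rw [hQ, Finset.mem_filter, e2]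
        exact ⟨fun h => h.2, fun h => ⟨Finset.mem_insert_of_mem (him l), h⟩⟩
      simp only [this]
      exact z2 _
    refine ⟨Q, ?_, ?_⟩
    · rw [Finset.mem_filter, Finset.mem_powerset, ram_iff hT hp hS₁ hpr hd h3 hS]
      refine ⟨⟨fun q hq hq2 => ?_, fun hθ hb h2 => ?_⟩, ?_⟩
      · have := (Finset.mem_filter.1 hq).1
        rw [Finset.mem_insert] at this
        rcases this with h | h
        · exact absurd h hq2
        · exact h
      · have h4 := (Finset.mem_filter.1 h2).2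
        rw [e0, hA1 hθ hb] at h4
        exact zero_ne_one h4
      · refine (sol_iff hT hp hpr hd h3 hS (ind Q)).2 ⟨fun u hu => ?_, fun k => ?_⟩
        · have h4 := hA3 u hu
          rw [f0, f1 u]
          simp only [f1, f2]
          exact h4
        · have h4 := hA4 k
          rw [f0, f2 k]
          simp only [f1, f2]
          exact h4
    · rw [f0, funext f1, funext f2]

end two

/-- the separation -/
noncomputable def sep {M : ℕ} (S₀ : Finset ℕ) (mk : Fin M → Finset ℕ) (S₁ : Finset ℕ)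
    (a b : Fin M) (β : Lb S₁) : ZMod 2 :=
  ∑ u ∈ pt S₁ ((S₀ ∪ mk a).erase 2), β.2.1 u + ∑ u ∈ pt S₁ ((S₀ ∪ mk b).erase 2), β.2.1 u +
    (te (S₀ ∪ mk a) + te (S₀ ∪ mk b)) * β.2.2

theorem sep_eq {M : ℕ} {S₀ : Finset ℕ} {mk : Fin M → Finset ℕ} {S₁ : Finset ℕ}
    (hm : ∀ a, (S₀ ∪ mk a).erase 2 ⊆ S₁) (hdis : Disjoint S₀ (Wm mk)) (a b : Fin M) (q : ℕ) :
    sep S₀ mk S₁ a b (lb S₁ q) = ∑ u ∈ symmDiff (mk a) (mk b), nr q u := by
  have hmW : ∀ i, mk i ⊆ Wm mk := fun i => Finset.subset_biUnion_of_mem mk (Finset.mem_univ i)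
  have hda : ∀ a, Disjoint S₀ (mk a) := fun a => hdis.mono_right (hmW a)
  have h1 : ∀ a, ∑ u ∈ pt S₁ ((S₀ ∪ mk a).erase 2), (lb S₁ q).2.1 u +
      te (S₀ ∪ mk a) * (lb S₁ q).2.2 = ∑ u ∈ S₀, nr q u + ∑ u ∈ mk a, nr q u := by
    intro a
    have h2 := sum_te (S₀ ∪ mk a) fun u => nr q u
    rw [← Finset.sum_union (hda a), h2, sum_pt (hm a)]
    rfl
  have h2 : ∀ A B : Finset ℕ, ∑ u ∈ A, nr q u + ∑ u ∈ B, nr q u =
      ∑ u ∈ symmDiff A B, nr q u := by
    intro A B
    have e1 : ∑ u ∈ A, nr q u = ∑ u ∈ A \ B, nr q u + ∑ u ∈ A ∩ B, nr q u := by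
      rw [← Finset.sum_union (Finset.disjoint_sdiff_inter A B), Finset.sdiff_union_inter]
    have e2 : ∑ u ∈ B, nr q u = ∑ u ∈ B \ A, nr q u + ∑ u ∈ A ∩ B, nr q u := by
      rw [Finset.inter_comm, ← Finset.sum_union (Finset.disjoint_sdiff_inter B A),
        Finset.sdiff_union_inter]
    have e3 : ∑ u ∈ symmDiff A B, nr q u = ∑ u ∈ A \ B, nr q u + ∑ u ∈ B \ A, nr q u := by
      rw [← Finset.sum_union disjoint_sdiff_sdiff]
      rfl
    rw [e1, e2, e3]
    have := two_self (∑ u ∈ A ∩ B, nr q u)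
    linear_combination this
  have h3 : sep S₀ mk S₁ a b (lb S₁ q) =
      (∑ u ∈ pt S₁ ((S₀ ∪ mk a).erase 2), (lb S₁ q).2.1 u + te (S₀ ∪ mk a) * (lb S₁ q).2.2) +
      (∑ u ∈ pt S₁ ((S₀ ∪ mk b).erase 2), (lb S₁ q).2.1 u + te (S₀ ∪ mk b) * (lb S₁ q).2.2) := by
    unfold sep
    ring
  rw [h3, h1, h1, ← h2]
  have := two_self (∑ u ∈ S₀, nr q u)
  linear_combination this

/-- the good labels -/
def LX {ι : Type} {M : ℕ} (L R : ℕ) (S₀ : Finset ℕ) (mk : Fin M → Finset ℕ) (S₁ : Finset ℕ)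
    (J3 J1 : Finset ι) (β : ι → Lb S₁) : Prop :=
  LN S₁ J3 β ∧ ∀ a b, a ≠ b → L * (S₀ ∪ Wm mk).card + R ≤
    (J1.filter fun k => sep S₀ mk S₁ a b (β k) ≠ 0).card

theorem ndX_iff {ι : Type} [Fintype ι] {M : ℕ} {J3 J1 : Finset ι} {S₀ S₁ : Finset ℕ}
    {mk : Fin M → Finset ℕ} {p : ι → ℕ} (L R : ℕ) (hS : S₁ = (S₀ ∪ Wm mk).erase 2)
    (hm : ∀ a, (S₀ ∪ mk a).erase 2 ⊆ S₁) (hdis : Disjoint S₀ (Wm mk))
    (hp : Function.Injective p) (hJ : ∀ i, p i % 4 = 1 ↔ i ∉ J3) (hJ1 : ∀ i, i ∈ J1 ↔ i ∉ J3) :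
    NdG L R mk S₀ (univ.image p) ↔ LX L R S₀ mk S₁ J3 J1 (fun i => lb S₁ (p i)) := by
  unfold NdG LX
  have h2 : 2 ∉ S₁ := by
    rw [hS]
    exact Finset.notMem_erase 2 _
  have hins : insert 2 (S₀ ∪ Wm mk) = insert 2 S₁ := by
    rw [hS]
    ext x
    simp only [Finset.mem_insert, Finset.mem_erase]
    tauto
  have h3 : ∀ i j,
      ((univ.image p).filter fun q => q % 4 = 1 ∧
        ∑ u ∈ symmDiff (mk i) (mk j), nr q u ≠ 0).card =
      (J1.filter fun k => sep S₀ mk S₁ i j (lb S₁ (p k)) ≠ 0).card := by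
    intro i j
    have h4 : (univ.image p).filter (fun q => q % 4 = 1 ∧
        ∑ u ∈ symmDiff (mk i) (mk j), nr q u ≠ 0) =
        (J1.filter fun k => sep S₀ mk S₁ i j (lb S₁ (p k)) ≠ 0).image p := by
      ext q
      simp only [Finset.mem_filter, Finset.mem_image, Finset.mem_univ, true_and]
      constructor
      · rintro ⟨⟨k, rfl⟩, h5, h6⟩
        refine ⟨k, ⟨(hJ1 k).2 ((hJ k).1 h5), ?_⟩, rfl⟩
        rw [sep_eq hm hdis]
        exact h6
      · rintro ⟨k, ⟨hk, h6⟩, rfl⟩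
        refine ⟨⟨k, rfl⟩, (hJ k).2 ((hJ1 k).1 hk), ?_⟩
        rw [sep_eq hm hdis] at h6
        exact h6
    rw [h4, Finset.card_image_of_injective _ hp]
  rw [hins, nd_iff h2 hJ]
  refine and_congr_right fun _ => ?_
  constructor
  · intro h i j hij
    rw [← h3 i j]
    exact h i j hij
  · intro h i j hij
    rw [h3 i j]
    exact h i j hij

end Pool.Agent.NH4.XG.BX

namespace Pool.Agent.NH4.XG

open Finset
open Pool.Agent.Y703.CQ (nr sg prs HB S_EQ S_MER)
open Pool.Agent.NH5.PR (eta ex2)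
open Pool.Agent.NH4.PJ (law LawP Wm)
open Pool.Agent.NH3.XD (Nd)
open Pool.Agent.NH3.XE (Dat tt)
open Pool.Agent.NH3.XE.BX (Lb lb LN dt nd_iff)
open Pool.Agent.NH3.XD.BX (b4 two_self recip HB_sub odd_cases)
open Pool.Agent.NH4.PJ.BX (pt mem_pt sum_pt)
open Pool.Agent.NH4.XJ.BX (sh sh_eq card_sh b4_eq)
open BX

/-- **The joint count in a box.** -/
theorem t_GBOX : S_GBOX := by
  intro hEQ hLAJ _ M rr ε hε
  obtain ⟨L, R₀, hLA⟩ := hLAJ M rr ε hε
  refine ⟨L, R₀, ?_⟩
  intro ι _ _ J3 C X κ S₀ mk hκ hCX hHB hS₀ h20 hdW hC hdis hLR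
  obtain ⟨S₁, hS₁d⟩ : ∃ S₁, S₁ = (S₀ ∪ Wm mk).erase 2 := ⟨_, rfl⟩
  have hS₁ : ∀ u ∈ S₁, u.Prime ∧ u ≠ 2 := by
    intro u hu
    rw [hS₁d, Finset.mem_erase] at hu
    exact ⟨hS₀ u hu.2, hu.1⟩
  have hcS : S₁.card ≤ (S₀ ∪ Wm mk).card := by
    rw [hS₁d]
    exact Finset.card_le_card (Finset.erase_subset _ _)
  set ℓ : ℝ := ∏ a, law 0 (rr a) with hℓ
  set R : ℝ := 2 ^ (prs (univ : Finset ι)).card * (κ * ∏ j, (X j : ℝ)) with hR
  have hR0 : 0 ≤ R := mul_nonneg (by positivity)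
    (mul_nonneg hκ (Finset.prod_nonneg fun j _ => by positivity))
  obtain ⟨J1, hJ1⟩ : ∃ J1 : Finset ι, J1 = univ.filter fun i => i ∉ J3 := ⟨_, rfl⟩
  have hJ1' : ∀ i, i ∈ J1 ↔ i ∉ J3 := fun i => by rw [hJ1, Finset.mem_filter]; simp
  have hmW : ∀ a, mk a ⊆ Wm mk := fun a => Finset.subset_biUnion_of_mem mk (Finset.mem_univ a)
  have hmS : ∀ a, (S₀ ∪ mk a).erase 2 ⊆ S₁ := fun a => by
    rw [hS₁d]
    exact Finset.erase_subset_erase _ (Finset.union_subset_union_right (hmW a))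
  -- facts on tuples
  have hinj : ∀ p ∈ Fintype.piFinset C, Function.Injective p := by
    intro p hp i j hij
    rw [Fintype.mem_piFinset] at hp
    by_contra hne
    have h1 := Finset.disjoint_left.1 (hdis i j hne) (hp i)
    rw [hij] at h1
    exact h1 (hp j)
  have hJ3 : ∀ p ∈ Fintype.piFinset C, ∀ i, i ∈ J3 ↔ p i % 4 = 3 := by
    intro p hp i
    rw [Fintype.mem_piFinset] at hp
    exact (hC i _ (hp i)).2.2.2
  have hd0 : ∀ p ∈ Fintype.piFinset C, ∀ i, p i ∉ S₀ ∪ Wm mk := by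
    intro p hp i
    rw [Fintype.mem_piFinset] at hp
    exact (hC i _ (hp i)).2.2.1
  have hd : ∀ p ∈ Fintype.piFinset C, ∀ i, p i ∉ S₁ := by
    intro p hp i h
    rw [hS₁d] at h
    exact hd0 p hp i (Finset.mem_of_mem_erase h)
  have hpr : ∀ p ∈ Fintype.piFinset C, ∀ i, (p i).Prime ∧ p i ≠ 2 := by
    intro p hp i
    rw [Fintype.mem_piFinset] at hp
    exact ⟨(hC i _ (hp i)).1, (hC i _ (hp i)).2.1⟩
  have hJ : ∀ p ∈ Fintype.piFinset C, ∀ i, p i % 4 = 1 ↔ i ∉ J3 := by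
    intro p hp i
    rw [hJ3 p hp i]
    have := odd_cases (hpr p hp i).1 (hpr p hp i).2
    omega
  -- the part with given labels
  have h1 : ∀ β : ι → Lb S₁, LX L R₀ S₀ mk S₁ J3 J1 β →
      |(((Fintype.piFinset C).filter fun p => (fun i => lb S₁ (p i)) = β ∧
          Ev mk rr (S₀ ∪ univ.image p)).card : ℝ) -
        ℓ * (((Fintype.piFinset C).filter fun p => (fun i => lb S₁ (p i)) = β).card : ℝ)| ≤
      ε * (((Fintype.piFinset C).filter fun p => (fun i => lb S₁ (p i)) = β).card : ℝ) + R := by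
    intro β hβ
    by_cases hemp : ((Fintype.piFinset C).filter fun p => (fun i => lb S₁ (p i)) = β) = ∅
    · have he2 : ((Fintype.piFinset C).filter fun p => (fun i => lb S₁ (p i)) = β ∧
          Ev mk rr (S₀ ∪ univ.image p)) = ∅ := by
        rw [← Finset.filter_filter, hemp, Finset.filter_empty]
      rw [he2, hemp]
      simpa using hR0
    obtain ⟨p₀, hp₀⟩ := Finset.nonempty_iff_ne_empty.2 hemp
    rw [Finset.mem_filter] at hp₀
    obtain ⟨hp₀, hp₀β⟩ := hp₀
    set C' : ι → Finset ℕ := fun i => (C i).filter fun q => lb S₁ q = β i with hC'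
    have hpi : (Fintype.piFinset C).filter (fun p => (fun i => lb S₁ (p i)) = β) =
        Fintype.piFinset C' := by
      ext p
      simp only [Finset.mem_filter, Fintype.mem_piFinset, hC']
      constructor
      · rintro ⟨h2, h3⟩ i
        exact ⟨h2 i, congrFun h3 i⟩
      · intro h2
        exact ⟨fun i => (h2 i).1, funext fun i => (h2 i).2⟩
    have hgood : GoodG (dt S₁ J3 β) := by
      refine ⟨?_, ?_, ?_⟩
      · intro u v huv
        exact recip (hS₁ u u.2).1 (hS₁ u u.2).2 (hS₁ v v.2).1 (hS₁ v v.2).2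
          fun h => huv (Subtype.ext h)
      · intro u l
        rw [← hp₀β]
        show nr u (p₀ l) + nr (p₀ l) u = b4 u * (if l ∈ J3 then 1 else 0)
        rw [b4_eq (hJ3 p₀ hp₀) l]
        exact recip (hS₁ u u.2).1 (hS₁ u u.2).2 (hpr p₀ hp₀ l).1 (hpr p₀ hp₀ l).2
          fun h => hd p₀ hp₀ l (by rw [← h]; exact u.2)
      · intro w w₀ hw
        obtain ⟨k, hk, hk2⟩ := hβ.1 w w₀ hw
        exact ⟨k, if_neg hk, hk2⟩
    have hc3 : (univ.filter fun l => (dt S₁ J3 β).bJ l = 1).card = J3.card := by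
      have : (univ.filter fun l => (dt S₁ J3 β).bJ l = 1) = J3 := by
        ext l
        rw [Finset.mem_filter]
        show l ∈ univ ∧ (if l ∈ J3 then (1 : ZMod 2) else 0) = 1 ↔ l ∈ J3
        by_cases h : l ∈ J3
        · simp [h]
        · simp [h]
      rw [this]
    have hLc : L * S₁.card + R₀ ≤ L * (S₀ ∪ Wm mk).card + R₀ :=
      Nat.add_le_add_right (Nat.mul_le_mul_left _ hcS) _
    have h2 := hLA S₁ ι (dt S₁ J3 β) (fun a => te (S₀ ∪ mk a))
      (fun a => pt S₁ ((S₀ ∪ mk a).erase 2)) hgood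
      (by
        rw [hc3, Fintype.card_coe]
        omega)
      (by
        intro a b hab
        rw [Fintype.card_coe]
        refine hLc.trans ((hβ.2 a b hab).trans (Finset.card_le_card ?_))
        intro k hk
        rw [Finset.mem_filter] at hk
        rw [Finset.mem_filter]
        exact ⟨Finset.mem_univ _, if_neg ((hJ1' k).1 hk.1), hk.2⟩)
    obtain ⟨Q, hQ⟩ : ∃ Q : (prs (univ : Finset ι) → ZMod 2) → Prop, ∀ α, Q α ↔ ∀ a,
      nG (dt S₁ J3 β) (te (S₀ ∪ mk a)) (pt S₁ ((S₀ ∪ mk a).erase 2)) α = 2 ^ (rr a + 1) :=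
      ⟨_, fun _ => Iff.rfl⟩
    have h3 := hEQ ι univ C' X κ hκ
      (fun i => (Finset.card_le_card (Finset.filter_subset _ _)).trans (hCX i))
      (HB_sub hHB fun i q => lb S₁ q = β i) (fun α => Q (α + sh J3))
    rw [card_sh] at h3
    have h4 : ((Fintype.piFinset C).filter fun p => (fun i => lb S₁ (p i)) = β ∧
        Ev mk rr (S₀ ∪ univ.image p)) = ((Fintype.piFinset C').filter fun p =>
          Q ((fun e => nr (p e.1.1) (p e.1.2)) + sh J3)) := by
      rw [← hpi, Finset.filter_filter]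
      refine Finset.filter_congr fun p hp => ?_
      refine and_congr_right fun hl => ?_
      rw [hQ, ← sh_eq (hinj p hp) (hpr p hp) (hJ3 p hp)]
      unfold Ev
      refine forall_congr' fun a => ?_
      have hp2 : 2 ∉ univ.image p := by
        intro h
        rw [Finset.mem_image] at h
        obtain ⟨i, -, hi⟩ := h
        exact (hpr p hp i).2 hi
      have h1 : (S₀ ∪ univ.image p ∪ mk a).erase 2 = (S₀ ∪ mk a).erase 2 ∪ univ.image p := by
        ext x
        simp only [Finset.mem_erase, Finset.mem_union]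
        constructor
        · rintro ⟨h1, (h2 | h2) | h2⟩
          · exact Or.inl ⟨h1, Or.inl h2⟩
          · exact Or.inr h2
          · exact Or.inl ⟨h1, Or.inr h2⟩
        · rintro (⟨h1, h2 | h2⟩ | h2)
          · exact ⟨h1, Or.inl (Or.inl h2)⟩
          · exact ⟨h1, Or.inr h2⟩
          · exact ⟨fun h => hp2 (h ▸ h2), Or.inl (Or.inr h2)⟩
      have h1' : te (S₀ ∪ univ.image p ∪ mk a) = te (S₀ ∪ mk a) := by
        by_cases h : 2 ∈ S₀ ∪ mk a
        · rw [te_one h, te_one]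
          rw [Finset.mem_union] at h
          rw [Finset.mem_union, Finset.mem_union]
          tauto
        · rw [te_zero h, te_zero]
          rw [Finset.mem_union] at h
          rw [Finset.mem_union, Finset.mem_union]
          tauto
      rw [nx_eq (hmS a) (hinj p hp) hS₁ (hpr p hp) (hd p hp) (hJ3 p hp) h1, h1', hl]
    have h5 : (((Fintype.piFinset C').card : ℕ) : ℝ) = ∏ j, ((C' j).card : ℝ) := by
      rw [Fintype.card_piFinset]
      push_cast
      rfl
    rw [h4, hpi, h5]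
    have h2' : |((univ.filter Q).card : ℝ) / 2 ^ (prs (univ : Finset ι)).card - ℓ| ≤ ε := by
      rw [Finset.filter_congr fun α _ => hQ α]
      exact h2
    set n : ℝ := (((Fintype.piFinset C').filter fun p =>
          Q ((fun e => nr (p e.1.1) (p e.1.2)) + sh J3)).card : ℝ) with hn
    set q : ℝ := ((univ.filter Q).card : ℝ) / 2 ^ (prs (univ : Finset ι)).card with hq
    set P : ℝ := ∏ j, ((C' j).card : ℝ) with hP
    have hP0 : 0 ≤ P := Finset.prod_nonneg fun j _ => by positivity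
    have h6 : |n - ℓ * P| ≤ |n - q * P| + |q - ℓ| * P := by
      have h7 : n - ℓ * P = (n - q * P) + (q - ℓ) * P := by ring
      have h8 : |(q - ℓ) * P| = |q - ℓ| * P := by rw [abs_mul, abs_of_nonneg hP0]
      rw [h7, ← h8]
      exact abs_add_le _ _
    have h7 : |q - ℓ| * P ≤ ε * P := mul_le_mul_of_nonneg_right h2' hP0
    have h8 : |n - q * P| ≤ R := h3
    linarith
  -- sum over the labels
  set LL := univ.filter (fun β : ι → Lb S₁ => LX L R₀ S₀ mk S₁ J3 J1 β) with hLL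
  have hfib : ∀ T : (ι → ℕ) → Prop,
      (((Fintype.piFinset C).filter fun p => NdG L R₀ mk S₀ (univ.image p) ∧ T p).card : ℝ) =
      ∑ β ∈ LL, (((Fintype.piFinset C).filter fun p =>
        (fun i => lb S₁ (p i)) = β ∧ T p).card : ℝ) := by
    intro T
    rw [Finset.card_eq_sum_card_fiberwise (f := fun (p : ι → ℕ) (i : ι) => lb S₁ (p i))
      (t := LL) (by
        intro p hp
        rw [Finset.mem_coe, Finset.mem_filter] at hp
        rw [Finset.mem_coe, hLL, Finset.mem_filter]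
        exact ⟨Finset.mem_univ _,
          (ndX_iff L R₀ hS₁d hmS hdW (hinj p hp.1) (hJ p hp.1) hJ1').1 hp.2.1⟩)]
    push_cast
    refine Finset.sum_congr rfl fun β hβ => ?_
    rw [hLL, Finset.mem_filter] at hβ
    congr 2
    ext p
    simp only [Finset.mem_filter]
    constructor
    · rintro ⟨⟨h3, h4, h4'⟩, h5⟩
      exact ⟨h3, h5, h4'⟩
    · rintro ⟨h3, h4, h5⟩
      refine ⟨⟨h3, ?_, h5⟩, h4⟩
      refine (ndX_iff L R₀ hS₁d hmS hdW (hinj p h3) (hJ p h3) hJ1').2 ?_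
      rw [h4]
      exact hβ.2
  have hf1 := hfib fun p => Ev mk rr (S₀ ∪ univ.image p)
  have hf2 := hfib fun _ => True
  simp only [and_true] at hf2
  rw [hf1, hf2, Finset.mul_sum, ← Finset.sum_sub_distrib]
  refine (Finset.abs_sum_le_sum_abs _ _).trans ?_
  refine (Finset.sum_le_sum fun β hβ => h1 β (Finset.mem_filter.1 hβ).2).trans ?_
  rw [Finset.sum_add_distrib, ← Finset.mul_sum, Finset.sum_const, nsmul_eq_mul]
  have h5 : ((LL.card : ℕ) : ℝ) ≤ 2 ^ ((2 * (S₀ ∪ Wm mk).card + 2) * Fintype.card ι) := by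
    have h6 : LL.card ≤ Fintype.card (ι → Lb S₁) := Finset.card_le_univ _
    rw [Fintype.card_fun, Fintype.card_prod, Fintype.card_prod, Fintype.card_fun, ZMod.card,
      Fintype.card_coe, ← pow_succ, ← pow_add, ← pow_mul] at h6
    have h7 : 2 ^ ((S₁.card + (S₁.card + 1)) * Fintype.card ι) ≤
        2 ^ ((2 * (S₀ ∪ Wm mk).card + 2) * Fintype.card ι) := by
      refine Nat.pow_le_pow_right (by norm_num) (Nat.mul_le_mul_right _ (by omega))
    exact_mod_cast h6.trans h7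
  have h6 := mul_le_mul_of_nonneg_right h5 hR0
  rw [pow_add, mul_assoc]
  linarith

end Pool.Agent.NH4.XG
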