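import Pool.Agent.NH4.XG.Stm
import Pool.Agent.NH4.XJ.MER

set_option autoImplicit false

/-!
# Project XG, the statement GMER: Mertens' theorem for the primes `1` modulo `4` on which a fixed
product of primes is not a square; the prime two is allowed
-/

open scoped Classical

namespace Pool.Agent.NH4.XG.ME

open Finset
open scoped NumberTheorySymbols

section count

variable (m : ℕ)

/-- the classes -/
noncomputable def BB : Finset ℕ := (range (8 * m)).filter fun a =>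
  (a % 8 = 1 ∧ J((a : ℤ) | m) = -1) ∨ (a % 8 = 5 ∧ J((a : ℤ) | m) = 1)

theorem jac_cop {m : ℕ} (hm0 : m ≠ 0) (a : ℕ) : J((a : ℤ) | m) ≠ 0 ↔ Nat.Coprime a m := by
  rw [Ne, jacobiSym.eq_zero_iff, not_and_or, not_not, Int.gcd_natCast_natCast]
  exact ⟨fun h => not_not.1 (h.resolve_left hm0), fun h => Or.inr (not_not.2 h)⟩

theorem card_BB (hcop : Nat.Coprime 8 m) (hm0 : m ≠ 0) : (BB m).card = Nat.totient m := by
  have hJ : ∀ a : ℕ, J(((a % m : ℕ) : ℤ) | m) = J((a : ℤ) | m) := by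
    intro a
    rw [Int.natCast_mod, ← jacobiSym.mod_left]
  rw [Nat.totient_eq_card_coprime]
  refine card_bij (fun a _ => a % m) ?_ ?_ ?_
  · intro a ha
    obtain ⟨h1, h2⟩ := mem_filter.mp ha
    rw [mem_filter, mem_range]
    refine ⟨Nat.mod_lt _ (Nat.pos_of_ne_zero hm0), ?_⟩
    rw [Nat.coprime_comm, ← jac_cop hm0, hJ]
    rcases h2 with h2 | h2 <;> rw [h2.2] <;> norm_num
  · intro a ha b hb hab
    have h3 : J((a : ℤ) | m) = J((b : ℤ) | m) := by
      rw [← hJ a, ← hJ b]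
      congr 2
    have h2 : a % 8 = b % 8 := by
      rcases (mem_filter.mp ha).2 with h4 | h4 <;> rcases (mem_filter.mp hb).2 with h5 | h5
      · rw [h4.1, h5.1]
      · rw [h4.2, h5.2] at h3
        norm_num at h3
      · rw [h4.2, h5.2] at h3
        norm_num at h3
      · rw [h4.1, h5.1]
    have h1 : a ≡ b [MOD 8 * m] := (Nat.modEq_and_modEq_iff_modEq_mul hcop).mp ⟨h2, hab⟩
    exact h1.eq_of_lt_of_lt (mem_range.mp (mem_filter.mp ha).1) (mem_range.mp (mem_filter.mp hb).1)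
  · intro y hy
    rw [mem_filter, mem_range] at hy
    obtain ⟨hy1, hy2⟩ := hy
    rw [Nat.coprime_comm, ← jac_cop hm0] at hy2
    have h0 : ∀ c : ℕ, ((c = 1 ∧ J((y : ℤ) | m) = -1) ∨ (c = 5 ∧ J((y : ℤ) | m) = 1)) →
        ∃ (a : ℕ) (ha : a ∈ BB m), a % m = y := by
      intro c hc
      have hlt := Nat.chineseRemainder_lt_mul hcop c y (by norm_num) hm0
      obtain ⟨k, hk⟩ : ∃ k, k = Nat.chineseRemainder hcop c y := ⟨_, rfl⟩
      rw [← hk] at hlt
      obtain ⟨k, hk1, hk2⟩ := k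
      clear hk
      have hmm : k % m = y := by
        rw [hk2, Nat.mod_eq_of_lt hy1]
      refine ⟨k, mem_filter.mpr ⟨mem_range.mpr hlt, ?_⟩, hmm⟩
      rw [← hJ, hmm]
      rcases hc with ⟨h1, h2⟩ | ⟨h1, h2⟩
      · subst h1
        exact Or.inl ⟨hk1, h2⟩
      · subst h1
        exact Or.inr ⟨hk1, h2⟩
    rcases jacobiSym.trichotomy (y : ℤ) m with h1 | h1 | h1
    · exact absurd h1 hy2
    · exact h0 5 (Or.inr ⟨rfl, h1⟩)
    · exact h0 1 (Or.inl ⟨rfl, h1⟩)

end count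

end Pool.Agent.NH4.XG.ME

namespace Pool.Agent.NH4.XG

open Finset
open Pool.Agent.Y703.CQ (nr)
open Pool.Agent.Y405.JQ (sg sg_neg jac_sum)
open ME
open scoped NumberTheorySymbols

theorem t_GMER : S_GMER := by
  intro e hne he
  by_cases h2e : 2 ∉ e
  · exact Pool.Agent.NH4.XJ.t_XJMER e hne fun u hu => ⟨he u hu, fun h => h2e (h ▸ hu)⟩
  rw [not_not] at h2e
  obtain ⟨m, hm⟩ : ∃ m : ℕ, m = ∏ u ∈ e.erase 2, u := ⟨_, rfl⟩
  have hem : ∏ u ∈ e, u = 2 * m := by
    rw [hm, mul_prod_erase e (fun v => v) h2e]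
  have hm0 : m ≠ 0 := by
    rw [hm]
    exact prod_ne_zero_iff.mpr fun v hv => (he v (mem_of_mem_erase hv)).ne_zero
  have hcop : Nat.Coprime 8 m := by
    rw [hm]
    refine Nat.Coprime.prod_right fun u hu => ?_
    obtain ⟨h2, h1⟩ := mem_erase.1 hu
    have h1 := he u h1
    rw [Nat.coprime_comm, h1.coprime_iff_not_dvd]
    intro h
    have h4 : u ∣ 2 ^ 3 := h
    exact h2 ((Nat.prime_dvd_prime_iff_eq h1 Nat.prime_two).mp (h1.dvd_of_dvd_pow h4))
  have hodd : Odd m := by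
    rw [← Nat.not_even_iff_odd, even_iff_two_dvd]
    intro h
    have h1 : 2 ∣ Nat.gcd 8 m := Nat.dvd_gcd (by norm_num) h
    rw [hcop] at h1
    norm_num at h1
  have hcard : 4 * (BB m).card = Nat.totient (8 * m) := by
    have h2 : Nat.totient 8 = 4 := by decide
    rw [card_BB m hcop hm0, Nat.totient_mul hcop, h2]
  have hQ : 1 ≤ 8 * m := by omega
  have hJc : ∀ a : ℕ, J((a : ℤ) | m) ≠ 0 → Nat.Coprime a m := fun a => (jac_cop hm0 a).1
  have hBJ : ∀ a ∈ BB m, J((a : ℤ) | m) ≠ 0 := by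
    intro a ha
    rcases (mem_filter.mp ha).2 with h4 | h4 <;> rw [h4.2] <;> norm_num
  have hmer : ∀ a ∈ BB m, ∃ C : ℝ, 0 ≤ C ∧ ∀ x : ℕ, 3 ≤ x →
      |∑ p ∈ (Icc 1 x).filter (fun p => p.Prime ∧ p % (8 * m) = a), (1 : ℝ) / p -
        1 / (Nat.totient (8 * m) : ℝ) * Real.log (Real.log x)| ≤ C := by
    intro a ha
    obtain ⟨h1, h2⟩ := mem_filter.mp ha
    refine Pool.Agent.Y405.CQ.mertens_ap (8 * m) hQ a (mem_range.mp h1) ?_
    refine Nat.Coprime.mul_right ?_ (hJc a (hBJ a ha))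
    have h5 : (a % 8).Coprime 8 := by
      rcases h2 with h2 | h2 <;> rw [h2.1] <;> decide
    rw [Nat.coprime_iff_gcd_eq_one, ← Nat.gcd_rec, Nat.gcd_comm] at h5
    exact h5
  choose! C hC0 hC using hmer
  refine ⟨∑ a ∈ BB m, C a, fun y hy => ?_⟩
  have hcond : ∀ p : ℕ, p.Prime → ((p.Prime ∧ p % 4 = 1 ∧ p ∉ e ∧ ∑ u ∈ e, nr p u ≠ 0) ↔
      p % (8 * m) ∈ BB m) := by
    intro p hp
    have e1 : p % (8 * m) % 8 = p % 8 := Nat.mod_mod_of_dvd _ ⟨m, by ring⟩
    have e3 : J(((p % (8 * m) : ℕ) : ℤ) | m) = J((p : ℤ) | m) := by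
      rw [jacobiSym.mod_left, ← Int.natCast_mod, Nat.mod_mod_of_dvd _ ⟨8, by ring⟩, Int.natCast_mod,
        ← jacobiSym.mod_left]
    have e4 : p % 4 = 1 → p ∉ e →
        (if p % 8 = 1 then 1 else -1) * J((p : ℤ) | m) = sg (∑ u ∈ e, nr p u) := by
      intro g1 g2
      have hpo : Odd p := Nat.odd_iff.2 (by omega)
      rw [jacobiSym.quadratic_reciprocity_one_mod_four g1 hodd, ← jac_sum p hp e he g2, hem,
        Nat.cast_mul, jacobiSym.mul_left, Nat.cast_ofNat, jacobiSym.at_two hpo,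
        ZMod.χ₈_nat_eq_if_mod_eight, if_neg (by omega : ¬ p % 2 = 0)]
      congr 1
      by_cases h8 : p % 8 = 1
      · rw [if_pos h8, if_pos (Or.inl h8)]
      · rw [if_neg h8, if_neg (by omega)]
    rw [BB, mem_filter, mem_range, e1, e3]
    constructor
    · rintro ⟨-, g1, g3, g4⟩
      refine ⟨Nat.mod_lt _ hQ, ?_⟩
      have e5 := e4 g1 g3
      rw [(sg_neg _).2 g4] at e5
      by_cases h8 : p % 8 = 1
      · rw [if_pos h8, one_mul] at e5
        exact Or.inl ⟨h8, e5⟩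
      · rw [if_neg h8] at e5
        exact Or.inr ⟨by omega, by omega⟩
    · rintro ⟨-, g1⟩
      have g0 : p % 4 = 1 := by
        rcases g1 with g1 | g1 <;> omega
      have gJ : J((p : ℤ) | m) ≠ 0 := by
        rcases g1 with g1 | g1 <;> rw [g1.2] <;> norm_num
      have g4 : p ∉ e := by
        intro h
        have h5 := hJc p gJ
        have h6 : p ∣ m := by
          rw [hm]
          exact dvd_prod_of_mem _ (mem_erase.2 ⟨by omega, h⟩)
        exact hp.one_lt.ne' (Nat.eq_one_of_dvd_coprimes h5 dvd_rfl h6)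
      refine ⟨hp, g0, g4, ?_⟩
      rw [← sg_neg, ← e4 g0 g4]
      rcases g1 with g1 | g1
      · rw [if_pos g1.1, g1.2, one_mul]
      · rw [if_neg (by omega), g1.2, mul_one]
  have hsum : ∑ p ∈ (range (y + 1)).filter
      (fun p => p.Prime ∧ p % 4 = 1 ∧ p ∉ e ∧ ∑ u ∈ e, nr p u ≠ 0),
      (1 : ℝ) / p = ∑ a ∈ BB m, ∑ p ∈ (Icc 1 y).filter
        (fun p => p.Prime ∧ p % (8 * m) = a), (1 : ℝ) / p := by
    rw [← sum_fiberwise_of_maps_to (s := (range (y + 1)).filter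
      (fun p => p.Prime ∧ p % 4 = 1 ∧ p ∉ e ∧ ∑ u ∈ e, nr p u ≠ 0)) (t := BB m)
      (g := fun p => p % (8 * m))]
    · refine sum_congr rfl fun a ha => ?_
      refine sum_congr ?_ fun _ _ => rfl
      ext p
      rw [mem_filter, mem_filter, mem_filter, mem_range, mem_Icc]
      constructor
      · rintro ⟨⟨g1, g2⟩, g3⟩
        exact ⟨⟨g2.1.one_lt.le, by omega⟩, g2.1, g3⟩
      · rintro ⟨⟨g0, g1⟩, g2, g3⟩
        refine ⟨⟨by omega, (hcond p g2).mpr ?_⟩, g3⟩
        rw [g3]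
        exact ha
    · intro p hp
      have hp' := (mem_filter.mp hp).2
      exact (hcond p hp'.1).mp hp'
  have hphi : (0 : ℝ) < (Nat.totient (8 * m) : ℝ) := by
    exact_mod_cast Nat.totient_pos.mpr (by omega)
  have hconst : (1 / 4 : ℝ) * Real.log (Real.log y) =
      ∑ a ∈ BB m, 1 / (Nat.totient (8 * m) : ℝ) * Real.log (Real.log y) := by
    rw [sum_const, nsmul_eq_mul, ← mul_assoc]
    congr 1
    have h1 : (4 : ℝ) * ((BB m).card : ℝ) = (Nat.totient (8 * m) : ℝ) := by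
      exact_mod_cast hcard
    rw [← h1]
    have h2 : ((BB m).card : ℝ) ≠ 0 := by
      intro h
      rw [← h1, h, mul_zero] at hphi
      exact lt_irrefl _ hphi
    field_simp
  rw [hsum, hconst, ← sum_sub_distrib]
  exact (abs_sum_le_sum_abs _ _).trans (sum_le_sum fun a ha => hC a ha y hy)

end Pool.Agent.NH4.XG
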