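import Pool.Agent.NH4.XG.Stm
import Pool.Agent.NH3.XD.LOW

/-!
# Project XG: the translation to numbers

`t_GNS`: `N` and the set of the prime factors of `N`. The lemma is that of
`Pool/Agent/NH3/XD/LOW.lean`; the event plays no role.
-/

set_option autoImplicit false

open scoped Classical

namespace Pool.Agent.NH4.XG

open Finset
open Pool.Agent.NH3.XD (SS LowX.card_eq)

theorem t_GNS : S_GNS := by
  intro hdq M m r mk rr hOk hM
  refine (hdq M m r mk rr hOk hM).congr fun X => ?_
  have e1 := LowX.card_eq m r hOk.2.2.2 X (Ev mk rr)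
  have e2 := LowX.card_eq m r hOk.2.2.2 X (fun _ => True)
  rw [Finset.filter_true] at e2
  simp only [and_true] at e2
  rw [← e1, ← e2]

end Pool.Agent.NH4.XG
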