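import Pool.Agent.NH4.XG.Stm
import Pool.Agent.NH4.XJ.RAD

/-!
# Project XG, XG-2: the radical of the pairing of two masks, for abstract systems
-/

set_option autoImplicit false
set_option linter.unusedSectionVars false
set_option linter.unusedVariables false

open scoped Classical

namespace Pool.Agent.NH4.XG

open Finset
open Pool.Agent.NH4.XJ.RAD (lf lf_apply lf_inj)

theorem t_ARAD : S_ARAD := by
  intro U J _ _ _ M d i a b hd
  obtain ⟨e, he⟩ : ∃ e : J → ZMod 2, ∀ k, e k = d.b k + (d.g a k + d.g b k) := ⟨_, fun k => rfl⟩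
  obtain ⟨be, hbe⟩ : ∃ be : (U → ZMod 2) × (J → ZMod 2) → ZMod 2, ∀ w, be w =
      ∑ l, d.b l * w.2 l := ⟨_, fun w => rfl⟩
  obtain ⟨hh, hhh⟩ : ∃ hh : (U → ZMod 2) × (J → ZMod 2) → J → ZMod 2, ∀ w k, hh w k =
      d.b k * be w + e k * w.2 k + ∑ u, w.1 u * d.C k u := ⟨_, fun w k => rfl⟩
  obtain ⟨φ, hφ⟩ : ∃ φ : (U → ZMod 2) × (J → ZMod 2) →
      Module.Dual (ZMod 2) ((U → ZMod 2) × (J → ZMod 2)), ∀ w, φ w =
      (lf fun u => ∑ k, d.C k u * w.2 k).comp (LinearMap.fst (ZMod 2) _ _) +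
        (lf (hh w)).comp (LinearMap.snd (ZMod 2) _ _) := ⟨_, fun w => rfl⟩
  have hφ1 : ∀ w v, φ w v = ∑ u, (∑ k, d.C k u * w.2 k) * v.1 u + ∑ k, hh w k * v.2 k := by
    intro w v
    rw [hφ, LinearMap.add_apply, LinearMap.comp_apply, LinearMap.comp_apply, lf_apply, lf_apply]
    rfl
  have hφ2 : ∀ w v, φ w v = omS d a b v w := by
    intro w v
    rw [hφ1]
    unfold omS
    have h4 : ∑ u, (∑ k, d.C k u * w.2 k) * v.1 u = ∑ u, v.1 u * ∑ k, d.C k u * w.2 k :=
      Finset.sum_congr rfl fun u _ => mul_comm _ _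
    have h5 : ∑ u, w.1 u * ∑ k, d.C k u * v.2 k =
        ∑ k, (∑ u, w.1 u * d.C k u) * v.2 k := by
      simp_rw [Finset.mul_sum, Finset.sum_mul]
      rw [Finset.sum_comm]
      exact Finset.sum_congr rfl fun k _ => Finset.sum_congr rfl fun u _ => by ring
    have h6 : ∑ k, hh w k * v.2 k = (∑ l, d.b l * v.2 l) * (∑ l, d.b l * w.2 l) +
        ∑ l, d.b l * (v.2 l * w.2 l) + ∑ k, (∑ u, w.1 u * d.C k u) * v.2 k +
        ∑ k, v.2 k * w.2 k * (d.g a k + d.g b k) := by
      rw [← hbe w, Finset.sum_mul, ← Finset.sum_add_distrib, ← Finset.sum_add_distrib,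
        ← Finset.sum_add_distrib]
      refine Finset.sum_congr rfl fun k _ => ?_
      rw [hhh, he]
      ring
    rw [h4, h5, h6]
    ring
  obtain ⟨R, hR⟩ : ∃ R : Finset ((U → ZMod 2) × (J → ZMod 2)), R =
      univ.filter fun w => w ∈ d.V b ∧ ∀ v ∈ d.V a, omS d a b v w = 0 := ⟨_, rfl⟩
  have hRm : ∀ w ∈ R, φ w ∈ (d.V a).dualAnnihilator := by
    intro w hw
    rw [hR, mem_filter] at hw
    rw [Submodule.mem_dualAnnihilator]
    intro v hv
    rw [hφ2]
    exact hw.2.2 v hv
  -- the dimensions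
  have hJ : 1 ≤ Fintype.card J := Fintype.card_pos_iff.2 ⟨i⟩
  have hfr : Module.finrank (ZMod 2) (d.V a) = Fintype.card J - 1 := by
    have h1 := hd.cV a
    rw [Module.natCard_eq_pow_finrank (K := ZMod 2), Nat.card_zmod] at h1
    exact Nat.pow_right_injective le_rfl h1
  have hfr2 : Module.finrank (ZMod 2) (d.V a).dualAnnihilator = Fintype.card U + 1 := by
    have h1 := Subspace.finrank_add_finrank_dualAnnihilator_eq (d.V a)
    rw [hfr, Module.finrank_prod, Module.finrank_fintype_fun_eq_card,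
      Module.finrank_fintype_fun_eq_card] at h1
    omega
  have hcA : Nat.card (d.V a).dualAnnihilator = 2 ^ (Fintype.card U + 1) := by
    rw [Module.natCard_eq_pow_finrank (K := ZMod 2), Nat.card_zmod, hfr2]
  have hfin : Finite (d.V a).dualAnnihilator :=
    Nat.finite_of_card_ne_zero (by rw [hcA]; positivity)
  have hcard : R.card ≤ Nat.card ((d.V a).dualAnnihilator × ZMod 2 × (U → ZMod 2) ×
      ({k // ¬ e k = 1} → ZMod 2)) := by
    have h1 : R.card = Nat.card R := by rw [Nat.card_eq_fintype_card, Fintype.card_coe]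
    rw [h1]
    refine Nat.card_le_card_of_injective
      (fun w : R => ((⟨φ w.1, hRm w.1 w.2⟩ : (d.V a).dualAnnihilator), be w.1, w.1.1,
        fun k : {k // ¬ e k = 1} => w.1.2 k)) ?_
    intro w w' hww
    simp only [Prod.mk.injEq, Subtype.mk.injEq] at hww
    obtain ⟨h1, h2, h3, h4⟩ := hww
    have h5 : hh w.1 = hh w'.1 := by
      apply lf_inj
      refine LinearMap.ext fun y => ?_
      have h6 := LinearMap.congr_fun h1 ((0 : U → ZMod 2), y)
      rw [hφ1, hφ1] at h6
      simpa [lf_apply] using h6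
    refine Subtype.ext (Prod.ext h3 (funext fun k => ?_))
    by_cases hk : e k = 1
    · have h6 := congrFun h5 k
      rw [hhh, hhh, h2, h3, hk, one_mul, one_mul] at h6
      exact add_left_cancel (add_right_cancel h6)
    · exact congrFun h4 ⟨k, hk⟩
  have hE : (univ.filter fun k => d.b k + (d.g a k + d.g b k) = 1).card +
      Fintype.card {k // ¬ e k = 1} = Fintype.card J := by
    rw [Fintype.card_subtype, ← Finset.card_univ,
      ← Finset.card_filter_add_card_filter_not (s := (univ : Finset J)) (fun k => e k = 1)]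
    simp only [he]
  rw [← hR]
  have hF : Nat.card ((d.V a).dualAnnihilator × ZMod 2 × (U → ZMod 2) ×
      ({k // ¬ e k = 1} → ZMod 2)) = 2 ^ (Fintype.card U + 1) * (2 * (2 ^ Fintype.card U *
        2 ^ Fintype.card {k // ¬ e k = 1})) := by
    rw [Nat.card_prod, hcA, Nat.card_prod, Nat.card_prod, Nat.card_eq_fintype_card (α := ZMod 2),
      Nat.card_eq_fintype_card (α := U → ZMod 2),
      Nat.card_eq_fintype_card (α := {k // ¬ e k = 1} → ZMod 2), Fintype.card_fun,
      Fintype.card_fun, ZMod.card]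
  rw [hF] at hcard
  calc R.card * 2 ^ (univ.filter fun k => d.b k + (d.g a k + d.g b k) = 1).card
      ≤ (2 ^ (Fintype.card U + 1) * (2 * (2 ^ Fintype.card U *
        2 ^ Fintype.card {k // ¬ e k = 1}))) * 2 ^ (univ.filter fun k =>
        d.b k + (d.g a k + d.g b k) = 1).card :=
        Nat.mul_le_mul_right _ hcard
    _ = 2 ^ (2 * Fintype.card U + 2 + Fintype.card J) := by
        rw [← hE]
        have hpow : ∀ a b c : ℕ, (2 ^ (a + 1) * (2 * (2 ^ a * 2 ^ b))) * 2 ^ c =
            2 ^ (2 * a + 2 + (c + b)) := by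
          intro a b c
          have h : 2 * a + 2 + (c + b) = (a + 1) + (1 + (a + b)) + c := by ring
          rw [h, pow_add 2 (a + 1 + (1 + (a + b))) c, pow_add 2 (a + 1) (1 + (a + b)),
            pow_add 2 1 (a + b), pow_add 2 a b, pow_one]
        exact hpow _ _ _

end Pool.Agent.NH4.XG
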