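import Mathlib
import Pool.Agent.NH4.XJ.Stm
import Pool.Agent.NH3.XE.Stm

/-!
# Project XG (helper4): the JOINT law of the four-ranks of the class groups of `ℚ(√(-N m_1)), …, ℚ(√(-N m_M))`

`N` runs over the squarefree numbers congruent to `r` modulo `m`, `4 ∣ m`, `r` prime to `m`; the masks
`mk 0, …, mk (M - 1)` are different sets of primes dividing `m`; the prime `2` is allowed, and the products
`N ∏ (mk a)` may be `1` modulo `4`, so that all kinds of discriminants occur. The kernel of the Redei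
matrix of `-N ∏ (mk a)` has `2 ^ (r_a + 1)` elements with the probability `∏ law 0 (r_a)`. This generalizes the
project XJ (`Pool.Agent.NH4.XJ`, odd discriminants) and the project XE (`Pool.Agent.NH3.XE`, one even
discriminant). All statements were checked numerically (`nx` is `2 ^ (r + 1)`, `r` the four-rank).
-/

set_option autoImplicit false
set_option linter.unusedVariables false

open scoped Classical

namespace Pool.Agent.NH4.XG

open Finset
open Pool.Agent.Y703.CX (sm la jj XX eL zz kk S_SIE)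
open Pool.Agent.Y703.CQ (nr sg prs HB S_EQ S_MER)
open Pool.Agent.NH5.PR (eta S_BIL S_ETA ex2)
open Pool.Agent.NH4.PJ (inj law LawP S_ABS Wm rs S_M1 S_M2 S_M3 S_POW)
open Pool.Agent.NH3.XD (Cl SS AA Nd CntP)
open Pool.Agent.NH3.XE (Dat tt S_EHAL S_EBAD)
open Pool.Agent.NH4.XJ (OkJ RR S_XPRB S_XISO S_XJFEW S_XJLOW)

/-! ### the event -/

/-- the masks: different sets of primes dividing `m`; the prime `2` is allowed -/
def OkG {M : ℕ} (m : ℕ) (mk : Fin M → Finset ℕ) : Prop :=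
  Function.Injective mk ∧ ∀ a, ∀ u ∈ mk a, u.Prime ∧ u ∣ m

/-- the primes which ramify in `ℚ(√(-∏ S))` -/
noncomputable def Ram (S : Finset ℕ) : Finset ℕ :=
  if (∏ p ∈ S, p) % 4 = 3 then S else insert 2 S

/-- the equations of the Redei matrix, at the odd primes -/
def SolG (S : Finset ℕ) (x : ℕ → ZMod 2) : Prop :=
  ∀ p ∈ S.erase 2, ∑ q ∈ S, nr p q * (x q + x p) + (if 2 ∈ S then 0 else nr p 2 * x 2) = 0

/-- the number of the elements of the kernel of the Redei matrix of `ℚ(√(-∏ S))` -/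
noncomputable def nx (S : Finset ℕ) : ℕ :=
  ((Ram S).powerset.filter fun T => SolG S fun p => if p ∈ T then 1 else 0).card

/-- the event -/
def Ev {M : ℕ} (mk : Fin M → Finset ℕ) (rr : Fin M → ℕ) (S : Finset ℕ) : Prop :=
  ∀ a, nx (S ∪ mk a) = 2 ^ (rr a + 1)

/-- FINAL, for sets of primes -/
def S_XGQ : Prop := ∀ (M m r : ℕ) (mk : Fin M → Finset ℕ) (rr : Fin M → ℕ), OkJ m r → OkG m mk →
  Filter.Tendsto (fun X : ℕ => (((SS m r X).filter (Ev mk rr)).card : ℝ) / ((SS m r X).card : ℝ))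
  Filter.atTop (nhds (∏ a, law 0 (rr a)))

/-- FINAL, for numbers -/
def S_XGDEN : Prop := ∀ (M m r : ℕ) (mk : Fin M → Finset ℕ) (rr : Fin M → ℕ), OkJ m r → OkG m mk →
  Filter.Tendsto
  (fun X : ℕ => (((Icc 1 X).filter fun N => Squarefree N ∧ N % m = r ∧
      Ev mk rr N.primeFactors).card : ℝ) /
    (((Icc 1 X).filter fun N => Squarefree N ∧ N % m = r).card : ℝ))
  Filter.atTop (nhds (∏ a, law 0 (rr a)))

/-! ### the linear algebra -/

section dat

variable {U J : Type} [Fintype U] [Fintype J] [LinearOrder J]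

/-- the reciprocity law; the labels are not degenerate -/
structure GoodG (d : Dat U J) : Prop where
  rA : ∀ u v, u ≠ v → d.A u v + d.A v u = d.bU u * d.bU v
  rB : ∀ u l, d.B u l + d.C l u = d.bU u * d.bJ l
  nd : ∀ (w : U → ZMod 2) (w₀ : ZMod 2), ((∃ u, w u ≠ 0) ∨ w₀ ≠ 0) →
    ∃ k, d.bJ k = 0 ∧ ∑ u, w u * d.C k u + w₀ * d.cJ k ≠ 0

/-- all the rows, for the mask `mm` and the exponent `θ` of `2`; `z.1` is the coordinate which belongs to
`2`; it vanishes if the discriminant is odd -/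
def AllG (d : Dat U J) (θ : ZMod 2) (mm : Finset U) (α : prs (univ : Finset J) → ZMod 2)
    (z : ZMod 2 × (U → ZMod 2) × (J → ZMod 2)) : Prop :=
  (θ = 0 → ∑ u ∈ mm, d.bU u + ∑ l, d.bJ l = 1 → z.1 = 0) ∧ (∀ u, u ∉ mm → z.2.1 u = 0) ∧
  (∀ u ∈ mm, ∑ v ∈ mm, d.A u v * (z.2.1 v + z.2.1 u) + ∑ l, d.B u l * (z.2.2 l + z.2.1 u) +
    d.cU u * (z.1 + θ * z.2.1 u) = 0) ∧
  ∀ k, ∑ u ∈ mm, d.C k u * (z.2.1 u + z.2.2 k) + ∑ l, ex2 (tt d) α k l * (z.2.2 l + z.2.2 k) +
    d.cJ k * (z.1 + θ * z.2.2 k) = 0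

/-- the number of the solutions -/
noncomputable def nG (d : Dat U J) (θ : ZMod 2) (mm : Finset U) (α : prs (univ : Finset J) → ZMod 2) :
    ℕ := (univ.filter fun z => AllG d θ mm α z).card

/-! An abstract form: `U` are the small unknowns, `V a` is the space of the solutions of the small rows
for the mask `a`, `C` are the coefficients of the small unknowns in the large rows, `g a` the diagonal
coefficients of the large rows, `b` the classes modulo four. -/

/-- the data of a system -/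
structure Sys (U J : Type) (M : ℕ) where
  b : J → ZMod 2
  C : J → U → ZMod 2
  g : Fin M → J → ZMod 2
  V : Fin M → Submodule (ZMod 2) ((U → ZMod 2) × (J → ZMod 2))

/-- the large rows, except the row `i` -/
def Lr {M : ℕ} (d : Sys U J M) (i : J) (a : Fin M) (α : prs (univ : Finset J) → ZMod 2)
    (z : (U → ZMod 2) × (J → ZMod 2)) : Prop :=
  ∀ k ∈ univ.erase i, ∑ u, d.C k u * z.1 u + d.g a k * z.2 k +
    ∑ l, ex2 (fun k l => d.b k * d.b l) α k l * (z.2 l + z.2 k) = 0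

/-- the number of the solutions -/
noncomputable def nn {M : ℕ} (d : Sys U J M) (i : J) (a : Fin M)
    (α : prs (univ : Finset J) → ZMod 2) : ℕ :=
  (univ.filter fun z => z ∈ d.V a ∧ Lr d i a α z).card

/-- the conditions on the data -/
structure Sys.Good {M : ℕ} (d : Sys U J M) (i : J) : Prop where
  bi : d.b i = 1
  zi : ∀ a, ∀ z ∈ d.V a, z.2 i = 0
  cV : ∀ a, Nat.card (d.V a) = 2 ^ (Fintype.card J - 1)
  nC : ∀ a, ∀ z ∈ d.V a, z.2 = 0 → (∀ k ∈ univ.erase i, ∑ u, d.C k u * z.1 u = 0) → z = 0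

/-- the sum of all the rows for the mask `mm` -/
def srG (d : Dat U J) (θ : ZMod 2) (mm : Finset U) (w : ZMod 2) (x : U → ZMod 2) (y : J → ZMod 2) :
    ZMod 2 :=
  ∑ u ∈ mm, (d.bU u * (∑ v ∈ mm, d.bU v + ∑ l, d.bJ l + 1) + θ * d.cU u) * x u +
    ∑ k, (d.bJ k * (∑ v ∈ mm, d.bU v + ∑ l, d.bJ l + 1) + θ * d.cJ k) * y k +
    (∑ u ∈ mm, d.cU u + ∑ l, d.cJ l) * w

/-- the space of the solutions of the small rows and of the sum of all the rows which vanish at `i`;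
the unknown `none` belongs to `2` -/
def VG (d : Dat U J) (θ : ZMod 2) (mm : Finset U) (i : J) :
    Submodule (ZMod 2) ((Option U → ZMod 2) × (J → ZMod 2)) where
  carrier := {z | (θ = 0 → ∑ u ∈ mm, d.bU u + ∑ l, d.bJ l = 1 → z.1 none = 0) ∧
    (∀ u, u ∉ mm → z.1 (some u) = 0) ∧ z.2 i = 0 ∧
    (∀ u ∈ mm, ∑ v ∈ mm, d.A u v * (z.1 (some v) + z.1 (some u)) +
      ∑ l, d.B u l * (z.2 l + z.1 (some u)) + d.cU u * (z.1 none + θ * z.1 (some u)) = 0) ∧
    srG d θ mm (z.1 none) (fun u => z.1 (some u)) z.2 = 0}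
  zero_mem' := by
    refine ⟨fun _ _ => rfl, fun _ _ => rfl, rfl, fun u _ => ?_, ?_⟩
    · simp
    · unfold srG
      simp
  add_mem' := by
    rintro z z' ⟨a1, a2, a3, a4, a5⟩ ⟨b1, b2, b3, b4, b5⟩
    refine ⟨fun h h' => ?_, fun u hu => ?_, ?_, fun u hu => ?_, ?_⟩
    · show z.1 none + z'.1 none = 0
      rw [a1 h h', b1 h h', add_zero]
    · show z.1 (some u) + z'.1 (some u) = 0
      rw [a2 u hu, b2 u hu, add_zero]
    · show z.2 i + z'.2 i = 0
      rw [a3, b3, add_zero]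
    · have h1 := congrArg₂ (· + ·) (a4 u hu) (b4 u hu)
      simp only [add_zero] at h1
      rw [← h1]
      simp only [Prod.fst_add, Prod.snd_add, Pi.add_apply, mul_add, Finset.sum_add_distrib]
      ring
    · unfold srG at a5 b5 ⊢
      have h1 := congrArg₂ (· + ·) a5 b5
      simp only [add_zero] at h1
      rw [← h1]
      simp only [Prod.fst_add, Prod.snd_add, Pi.add_apply, mul_add, Finset.sum_add_distrib]
      ring
  smul_mem' := by
    intro c z hz
    have hc : c = 0 ∨ c = 1 := by revert c; decide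
    rcases hc with rfl | rfl
    · rw [zero_smul]
      refine ⟨fun _ _ => rfl, fun _ _ => rfl, rfl, fun u _ => ?_, ?_⟩
      · simp
      · unfold srG
        simp
    · rw [one_smul]
      exact hz

/-- the abstract system of the data -/
noncomputable def toS {M : ℕ} (d : Dat U J) (θ : Fin M → ZMod 2) (mm : Fin M → Finset U) (i : J) :
    Sys (Option U) J M where
  b := d.bJ
  C := fun k u => match u with
    | none => d.cJ k
    | some u => d.C k u
  g := fun a k => ∑ u ∈ mm a, d.C k u + θ a * d.cJ k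
  V := fun a => VG d (θ a) (mm a) i

/-- the pairing of the solutions for two masks -/
def omS {M : ℕ} (d : Sys U J M) (a b : Fin M) (v w : (U → ZMod 2) × (J → ZMod 2)) : ZMod 2 :=
  (∑ l, d.b l * v.2 l) * (∑ l, d.b l * w.2 l) + ∑ l, d.b l * (v.2 l * w.2 l) +
    ∑ u, v.1 u * ∑ k, d.C k u * w.2 k + ∑ u, w.1 u * ∑ k, d.C k u * v.2 k +
    ∑ k, v.2 k * w.2 k * (d.g a k + d.g b k)

end dat

/-- XG-RAD: the radical of the pairing -/
def S_ARAD : Prop := ∀ (U J : Type) [Fintype U] [Fintype J] [LinearOrder J] (M : ℕ) (d : Sys U J M)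
  (i : J) (a b : Fin M), d.Good i →
  (univ.filter fun w => w ∈ d.V b ∧ ∀ v ∈ d.V a, omS d a b v w = 0).card *
      2 ^ (univ.filter fun k => d.b k + (d.g a k + d.g b k) = 1).card ≤
    2 ^ (2 * Fintype.card U + 2 + Fintype.card J)

/-- XG-SYS: the system of the data is good, and the kernel has twice as many elements as the reduced
one -/
def S_GSYS : Prop := ∀ (U J : Type) [Fintype U] [Fintype J] [LinearOrder J] (d : Dat U J),
  GoodG d → ∀ (M : ℕ) (θ : Fin M → ZMod 2) (mm : Fin M → Finset U) (i j : J), d.bJ i = 1 →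
  d.bJ j = 1 → i ≠ j → (toS d θ mm i).Good i ∧
    ∀ a (α : prs (univ : Finset J) → ZMod 2), nG d (θ a) (mm a) α = 2 * nn (toS d θ mm i) i a α

/-- XG-MOM: the mixed moments of the abstract systems -/
def S_GMOM : Prop := ∀ (M : ℕ) (k : Fin M → ℕ), ∃ (C : ℝ) (L : ℕ), 0 < C ∧
  ∀ (U J : Type) [Fintype U] [Fintype J] [LinearOrder J] (d : Sys U J M) (i : J) (V : ℕ), d.Good i →
  V ≤ (univ.filter fun l => d.b l = 1).card →
  (∀ a b, a ≠ b → V ≤ (univ.filter fun k => d.b k = 0 ∧ d.g a k + d.g b k ≠ 0).card) →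
  |(∑ α : prs (univ : Finset J) → ZMod 2, ∏ a, inj (k a) (nn d i a α)) /
      2 ^ (prs (univ : Finset J)).card - 1| ≤ C * 2 ^ (L * Fintype.card U) / 2 ^ V

/-- XG-LA: the joint law for a random completion -/
def S_GLA : Prop := ∀ (M : ℕ) (rr : Fin M → ℕ) (ε : ℝ), 0 < ε → ∃ L R : ℕ,
  ∀ (U J : Type) [Fintype U] [Fintype J] [LinearOrder J] (d : Dat U J) (θ : Fin M → ZMod 2)
  (mm : Fin M → Finset U), GoodG d →
  L * Fintype.card U + R ≤ (univ.filter fun l => d.bJ l = 1).card →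
  (∀ a b, a ≠ b → L * Fintype.card U + R ≤ (univ.filter fun k => d.bJ k = 0 ∧
    ∑ u ∈ mm a, d.C k u + ∑ u ∈ mm b, d.C k u + (θ a + θ b) * d.cJ k ≠ 0).card) →
  |((univ.filter fun α : prs (univ : Finset J) → ZMod 2 =>
      ∀ a, nG d (θ a) (mm a) α = 2 ^ (rr a + 1)).card : ℝ) /
      2 ^ (prs (univ : Finset J)).card - ∏ a, law 0 (rr a)| ≤ ε

/-! ### the boxes -/

/-- the labels of the large primes are not degenerate, and they separate the masks -/
def NdG {M : ℕ} (L R : ℕ) (mk : Fin M → Finset ℕ) (S₀ S₁ : Finset ℕ) : Prop :=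
  Nd (insert 2 (S₀ ∪ Wm mk)) S₁ ∧ ∀ a b, a ≠ b → L * (S₀ ∪ Wm mk).card + R ≤
    (S₁.filter fun p => p % 4 = 1 ∧ ∑ u ∈ symmDiff (mk a) (mk b), nr p u ≠ 0).card

/-- XG-BOX: the count in a box (the labels include the symbol of `2`) -/
def S_GBOX : Prop := S_EQ → S_GLA → LawP → ∀ (M : ℕ) (rr : Fin M → ℕ) (ε : ℝ), 0 < ε →
  ∃ L R : ℕ, ∀ (ι : Type) [Fintype ι] [LinearOrder ι] (J3 : Finset ι) (C : ι → Finset ℕ)
  (X : ι → ℕ) (κ : ℝ) (S₀ : Finset ℕ) (mk : Fin M → Finset ℕ), 0 ≤ κ →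
  (∀ i, (C i).card ≤ X i) → HB (univ : Finset ι) C X κ →
  (∀ u ∈ S₀ ∪ Wm mk, u.Prime) → 2 ∉ S₀ → Disjoint S₀ (Wm mk) →
  (∀ i, ∀ p ∈ C i, p.Prime ∧ p ≠ 2 ∧ p ∉ S₀ ∪ Wm mk ∧ (i ∈ J3 ↔ p % 4 = 3)) →
  (∀ i l, i ≠ l → Disjoint (C i) (C l)) →
  L * (S₀ ∪ Wm mk).card + R + 1 ≤ J3.card →
  |(((Fintype.piFinset C).filter fun p => NdG L R mk S₀ (univ.image p) ∧
      Ev mk rr (S₀ ∪ univ.image p)).card : ℝ) -
      (∏ a, law 0 (rr a)) *
        (((Fintype.piFinset C).filter fun p => NdG L R mk S₀ (univ.image p)).card : ℝ)| ≤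
    ε * (((Fintype.piFinset C).filter fun p => NdG L R mk S₀ (univ.image p)).card : ℝ) +
    2 ^ ((2 * (S₀ ∪ Wm mk).card + 2) * Fintype.card ι + (prs (univ : Finset ι)).card) *
      (κ * ∏ j, (X j : ℝ))

/-- XG-KEY: the sum over the boxes (`RR` is the one of the project XJ) -/
def S_GKEY : Prop := S_BIL → S_EQ → S_GLA → LawP → S_GBOX →
  ∀ (M : ℕ) (rr : Fin M → ℕ) (ε : ℝ), 0 < ε → ∃ (L R : ℕ) (C : ℝ), 1 ≤ C ∧
  ∀ (m r : ℕ) (mk : Fin M → Finset ℕ) (X z H k N : ℕ) (κ : ℝ),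
  OkJ m r → OkG m mk → (∀ u ∈ Wm mk, u ≤ z) → (Wm mk).card ≤ k →
  1 ≤ X → 1 ≤ H → 2 ≤ z → 0 ≤ κ → C ≤ κ ^ 12 * z → (H : ℝ) * Real.log X < N →
  |(((RR m r mk X z H k L R).filter fun S => NdG L R mk (sm z S) (la z S) ∧
      Ev mk rr S).card : ℝ) - (∏ a, law 0 (rr a)) *
      (((RR m r mk X z H k L R).filter fun S => NdG L R mk (sm z S) (la z S)).card : ℝ)| ≤
    ε * ((RR m r mk X z H k L R).card : ℝ) +
    (m * N + m : ℝ) ^ k * (3 ^ (6 * k ^ 2) * κ) * (X * (1 + Real.log X))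

/-! ### the exceptional sets -/

/-- XG-MER: Mertens' theorem for the primes `1` modulo `4` on which a product of primes is not a
square; the prime `2` is allowed in `e` -/
def S_GMER : Prop := ∀ e : Finset ℕ, e.Nonempty → (∀ u ∈ e, u.Prime) →
  ∃ C : ℝ, ∀ y : ℕ, 3 ≤ y →
  |∑ p ∈ (range (y + 1)).filter (fun p => p.Prime ∧ p % 4 = 1 ∧ p ∉ e ∧ ∑ u ∈ e, nr p u ≠ 0),
    (1 : ℝ) / p - 1 / 4 * Real.log (Real.log y)| ≤ C

/-- XG-SEP: few sets have few large primes `1` modulo `4` on which a product of primes is not a square;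
the prime `2` is allowed in `e` -/
def S_GSEP : Prop := S_SIE → S_MER → S_GMER → ∀ (L R : ℕ) (e : Finset ℕ), e.Nonempty →
  (∀ u ∈ e, u.Prime) → ∃ (C : ℝ) (X₀ : ℕ), ∀ X : ℕ, X₀ ≤ X →
  (((AA X).filter fun S => ((la (zz X) S).filter fun p => p % 4 = 1 ∧
      ∑ u ∈ e, nr p u ≠ 0).card < L * (sm (zz X) S).card + R).card : ℝ) ≤
    C * X * (Real.log X) ^ (-1 / 64 : ℝ)

/-- XG-ASY: the final asymptotics -/
def S_GASY : Prop := S_BIL → S_EQ → S_GLA → LawP → S_GBOX → S_GKEY → CntP → S_SIE →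
  S_EHAL → S_EBAD → S_MER → S_XJFEW → S_GMER → S_GSEP → S_XJLOW → S_XGQ

/-- XG-NS: the translation -/
def S_GNS : Prop := S_XGQ → S_XGDEN

end Pool.Agent.NH4.XG
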