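import Pool.Agent.NH4.XJ.FEW
import Pool.Agent.NH4.XG.Stm

/-!
# XG-SEP: few sets have few separating primes, the prime `2` is allowed
-/

set_option autoImplicit false

open scoped Classical

namespace Pool.Agent.NH4.XG.Sep

open Finset Filter
open Pool.Agent.Y703.CQ (nr)
open Pool.Agent.Y495.CX.Few (PN)
open Pool.Agent.NH4.XJ.Few (BE)

/-- the lower bound for the reciprocals -/
lemma mer_G (hm : S_GMER) {e : Finset ℕ} (he : e.Nonempty) (hu : ∀ u ∈ e, u.Prime) :
    ∃ C : ℝ, 0 ≤ C ∧ ∀ y : ℕ, 3 ≤ y →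
    1 / 16 * Real.log (Real.log y) - C ≤ ∑ p ∈ (PN y).filter (BE e), (1 : ℝ) / p := by
  obtain ⟨C, hC⟩ := hm e he hu
  refine ⟨|C|, abs_nonneg _, fun y hy => ?_⟩
  have h1 := (abs_le.1 (hC y hy)).1
  have h2 := le_abs_self C
  have h3 : (range (y + 1)).filter (fun p => p.Prime ∧ p % 4 = 1 ∧ p ∉ e ∧ ∑ u ∈ e, nr p u ≠ 0) =
      (PN y).filter (BE e) := by
    ext p
    rw [mem_filter, mem_filter, mem_filter, mem_Icc, mem_range]
    constructor
    · rintro ⟨a, b, c⟩
      exact ⟨⟨⟨b.one_lt.le, by omega⟩, b⟩, c⟩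
    · rintro ⟨a, b⟩
      exact ⟨by have := a.1.2; omega, a.2, b⟩
  rw [h3] at h1
  have h5 : 0 ≤ Real.log (Real.log y) := by
    apply Real.log_nonneg
    rw [Real.le_log_iff_exp_le (by positivity)]
    have e1 := Real.exp_one_lt_d9
    have e2 : (3 : ℝ) ≤ y := by exact_mod_cast hy
    linarith
  linarith

end Pool.Agent.NH4.XG.Sep

namespace Pool.Agent.NH4.XG

open Finset
open Pool.Agent.Y703.CX (sm la zz)
open Pool.Agent.Y703.CQ (nr)
open Pool.Agent.NH3.XD (AA)
open Pool.Agent.NH4.XJ.Few (BE few_of)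

/-- XG-SEP: few sets have few large primes `1` modulo `4` on which a product of primes is not a
square -/
theorem t_GSEP : S_GSEP := by
  intro hs hm hj L R e he hu
  obtain ⟨C, X₀, h⟩ := few_of hs (BE e) (Sep.mer_G hj he hu) L R
  refine ⟨C, X₀, fun X hX => le_trans ?_ (h X hX)⟩
  have h1 : ((AA X).filter fun S => ((la (zz X) S).filter fun p => p % 4 = 1 ∧
      ∑ u ∈ e, nr p u ≠ 0).card < L * (sm (zz X) S).card + R) ⊆
      ((AA X).filter fun S => ((la (zz X) S).filter (BE e)).card <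
        L * (sm (zz X) S).card + R) := by
    intro S hS
    rw [mem_filter] at hS ⊢
    refine ⟨hS.1, lt_of_le_of_lt (card_le_card fun p hp => ?_) hS.2⟩
    rw [mem_filter] at hp ⊢
    exact ⟨hp.1, hp.2.1, hp.2.2.2⟩
  exact_mod_cast card_le_card h1

end Pool.Agent.NH4.XG
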