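import Pool.Agent.NH4.XG.Stm
import Pool.Agent.NH3.XE.SYS

/-!
# Project XG, job XG-1 (helper2): the system of the data
-/

set_option autoImplicit false
set_option linter.unusedSectionVars false
set_option linter.unusedVariables false

open scoped Classical

namespace Pool.Agent.NH4.XG

open Finset
open Pool.Agent.Y703.CQ (prs)
open Pool.Agent.NH5.PR (ex2)
open Pool.Agent.NH3.XE (Dat tt)

namespace SYS

open Pool.Agent.NH3.XE.SYS (two_self mul_one_add sum_rows ex2_rec card_filter_sub)

variable {U J : Type} [Fintype U] [Fintype J] [LinearOrder J]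

theorem zc (c : ZMod 2) : c = 0 ∨ c = 1 := by
  revert c; decide

/-- all symbols -/
noncomputable def LL (d : Dat U J) (m : Finset U) (α : prs (univ : Finset J) → ZMod 2) :
    m ⊕ J → m ⊕ J → ZMod 2
  | .inl u, .inl v => d.A u v
  | .inl u, .inr l => d.B u l
  | .inr k, .inl u => d.C k u
  | .inr k, .inr l => ex2 (tt d) α k l

theorem LL_rec {d : Dat U J} (hd : GoodG d) (m : Finset U)
    (α : prs (univ : Finset J) → ZMod 2) :
    ∀ p q : m ⊕ J, p ≠ q → LL d m α p q + LL d m α q p =
      Sum.elim (fun u : m => d.bU u) d.bJ p * Sum.elim (fun u : m => d.bU u) d.bJ q := by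
  rintro (u | k) (v | l) h
  · exact hd.rA u v fun h' => h (by rw [Subtype.ext h'])
  · exact hd.rB u l
  · show d.C k v + d.B v k = d.bJ k * d.bU v
    rw [add_comm, hd.rB v k, mul_comm]
  · exact ex2_rec d α fun h' => h (by rw [h'])

/-- the small row -/
noncomputable def rS (d : Dat U J) (θ : ZMod 2) (m : Finset U) (w : ZMod 2) (x : U → ZMod 2)
    (y : J → ZMod 2) (u : U) : ZMod 2 :=
  ∑ v ∈ m, d.A u v * (x v + x u) + ∑ l, d.B u l * (y l + x u) + d.cU u * (w + θ * x u)

/-- the large row -/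
noncomputable def rL (d : Dat U J) (θ : ZMod 2) (m : Finset U) (α : prs (univ : Finset J) → ZMod 2)
    (w : ZMod 2) (x : U → ZMod 2) (y : J → ZMod 2) (k : J) : ZMod 2 :=
  ∑ u ∈ m, d.C k u * (x u + y k) + ∑ l, ex2 (tt d) α k l * (y l + y k) + d.cJ k * (w + θ * y k)

/-- the sum of all the rows -/
theorem sum_all {d : Dat U J} (hd : GoodG d) (θ : ZMod 2) (m : Finset U)
    (α : prs (univ : Finset J) → ZMod 2) (w : ZMod 2) (x : U → ZMod 2) (y : J → ZMod 2) :
    ∑ u ∈ m, rS d θ m w x y u + ∑ k, rL d θ m α w x y k = srG d θ m w x y := by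
  have h := sum_rows (LL d m α) (Sum.elim (fun u : m => d.bU u) d.bJ)
    (Sum.elim (fun u : m => x u) y) (LL_rec hd m α)
  simp only [Fintype.sum_sum_type, Sum.elim_inl, Sum.elim_inr] at h
  have e1 : ∀ u : m, ∑ v : m, LL d m α (.inl u) (.inl v) * (x v + x u) +
      ∑ l, LL d m α (.inl u) (.inr l) * (y l + x u) =
      ∑ v ∈ m, d.A u v * (x v + x u) + ∑ l, d.B u l * (y l + x u) := by
    intro u
    rw [← Finset.sum_coe_sort m]
    rfl
  have e2 : ∀ k : J, ∑ v : m, LL d m α (.inr k) (.inl v) * (x v + y k) +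
      ∑ l, LL d m α (.inr k) (.inr l) * (y l + y k) =
      ∑ u ∈ m, d.C k u * (x u + y k) + ∑ l, ex2 (tt d) α k l * (y l + y k) := by
    intro k
    rw [← Finset.sum_coe_sort m]
    rfl
  simp only [e1, e2] at h
  rw [Finset.sum_coe_sort m (fun u => ∑ v ∈ m, d.A u v * (x v + x u) + ∑ l, d.B u l * (y l + x u)),
    Finset.sum_coe_sort m (fun u => d.bU u), Finset.sum_coe_sort m (fun u => d.bU u * x u)] at h
  have f1 : ∑ u ∈ m, rS d θ m w x y u =
      ∑ u ∈ m, (∑ v ∈ m, d.A u v * (x v + x u) + ∑ l, d.B u l * (y l + x u)) +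
        ((∑ u ∈ m, d.cU u) * w + θ * ∑ u ∈ m, d.cU u * x u) := by
    unfold rS
    rw [Finset.sum_add_distrib]
    congr 1
    rw [Finset.sum_mul, Finset.mul_sum, ← Finset.sum_add_distrib]
    exact Finset.sum_congr rfl fun u _ => by ring
  have f2 : ∑ k, rL d θ m α w x y k =
      ∑ k, (∑ u ∈ m, d.C k u * (x u + y k) + ∑ l, ex2 (tt d) α k l * (y l + y k)) +
        ((∑ l, d.cJ l) * w + θ * ∑ l, d.cJ l * y l) := by
    unfold rL
    rw [Finset.sum_add_distrib]
    congr 1
    rw [Finset.sum_mul, Finset.mul_sum, ← Finset.sum_add_distrib]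
    exact Finset.sum_congr rfl fun u _ => by ring
  have f3 : srG d θ m w x y = (∑ v ∈ m, d.bU v + ∑ l, d.bJ l + 1) *
      (∑ u ∈ m, d.bU u * x u + ∑ l, d.bJ l * y l) + θ * (∑ u ∈ m, d.cU u * x u +
      ∑ l, d.cJ l * y l) + (∑ u ∈ m, d.cU u + ∑ l, d.cJ l) * w := by
    unfold srG
    generalize ∑ v ∈ m, d.bU v + ∑ l, d.bJ l + 1 = c
    simp only [mul_add, Finset.mul_sum, add_mul, Finset.sum_add_distrib]
    have g1 : ∑ u ∈ m, d.bU u * c * x u = ∑ u ∈ m, c * (d.bU u * x u) :=
      Finset.sum_congr rfl fun u _ => by ring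
    have g2 : ∑ u ∈ m, θ * d.cU u * x u = ∑ u ∈ m, θ * (d.cU u * x u) :=
      Finset.sum_congr rfl fun u _ => by ring
    have g3 : ∑ l, d.bJ l * c * y l = ∑ l, c * (d.bJ l * y l) :=
      Finset.sum_congr rfl fun u _ => by ring
    have g4 : ∑ l, θ * d.cJ l * y l = ∑ l, θ * (d.cJ l * y l) :=
      Finset.sum_congr rfl fun u _ => by ring
    rw [g1, g2, g3, g4]
    ring
  rw [f1, f2, f3]
  linear_combination h

/-! ### the space -/

/-- the map of the small rows, of the value at `i` and of the sum of the rows -/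
noncomputable def Phi (d : Dat U J) (θ : ZMod 2) (m : Finset U) (i : J) :
    ((Option U → ZMod 2) × (J → ZMod 2)) →ₗ[ZMod 2] ((U → ZMod 2) × ZMod 2 × ZMod 2) where
  toFun z := (fun u => if u ∈ m then rS d θ m (z.1 none) (fun u => z.1 (some u)) z.2 u else
      z.1 (some u), z.2 i,
    if θ = 0 ∧ ∑ u ∈ m, d.bU u + ∑ l, d.bJ l = 1 then z.1 none else
      srG d θ m (z.1 none) (fun u => z.1 (some u)) z.2)
  map_add' z w := by
    refine Prod.ext ?_ (Prod.ext rfl ?_)
    · funext u
      show (if u ∈ m then (_ : ZMod 2) else _) = (if u ∈ m then (_ : ZMod 2) else _) +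
        (if u ∈ m then (_ : ZMod 2) else _)
      split_ifs
      · unfold rS
        simp only [Prod.fst_add, Prod.snd_add, Pi.add_apply, mul_add, Finset.sum_add_distrib]
        ring
      · rfl
    · show (if _ then (_ : ZMod 2) else _) = (if _ then (_ : ZMod 2) else _) +
        (if _ then (_ : ZMod 2) else _)
      split_ifs
      · rfl
      · unfold srG
        simp only [Prod.fst_add, Prod.snd_add, Pi.add_apply, mul_add, Finset.sum_add_distrib]
        ring
  map_smul' c z := by
    rw [RingHom.id_apply]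
    rcases zc c with rfl | rfl
    · rw [zero_smul, zero_smul]
      refine Prod.ext ?_ (Prod.ext rfl ?_)
      · funext u
        show (if u ∈ m then _ else _) = (0 : ZMod 2)
        split_ifs
        · unfold rS
          simp
        · rfl
      · show (if _ then _ else _) = (0 : ZMod 2)
        split_ifs
        · rfl
        · unfold srG
          simp
    · rw [one_smul, one_smul]

theorem par_cases (p : ZMod 2) (h : p ≠ 1) : p = 0 := by
  revert p; decide

theorem sum_single {K : Type} [Fintype K] [DecidableEq K] (k : K) (f : K → ZMod 2) :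
    ∑ l, f l * (Pi.single k (1 : ZMod 2) : K → ZMod 2) l = f k := by
  rw [Finset.sum_eq_single k]
  · rw [Pi.single_eq_same, mul_one]
  · intro l _ hl
    rw [Pi.single_eq_of_ne hl, mul_zero]
  · intro h
    exact absurd (Finset.mem_univ k) h

theorem mem_VG {d : Dat U J} (θ : ZMod 2) (m : Finset U) (i : J)
    (z : (Option U → ZMod 2) × (J → ZMod 2)) :
    z ∈ VG d θ m i ↔ z ∈ LinearMap.ker (Phi d θ m i) := by
  rw [LinearMap.mem_ker]
  constructor
  · rintro ⟨h1, h2, h3, h4, h5⟩
    refine Prod.ext ?_ (Prod.ext h3 ?_)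
    · funext u
      show (if u ∈ m then _ else _) = (0 : ZMod 2)
      split_ifs with hu
      · exact h4 u hu
      · exact h2 u hu
    · show (if _ then _ else _) = (0 : ZMod 2)
      split_ifs with hc
      · exact h1 hc.1 hc.2
      · exact h5
  · intro h
    have a1 : ∀ u, (if u ∈ m then rS d θ m (z.1 none) (fun u => z.1 (some u)) z.2 u else
      z.1 (some u)) = 0 := fun u => congrFun (congrArg Prod.fst h) u
    have a2 : z.2 i = 0 := congrArg Prod.fst (congrArg Prod.snd h)
    have a3 : (if θ = 0 ∧ ∑ u ∈ m, d.bU u + ∑ l, d.bJ l = 1 then z.1 none else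
      srG d θ m (z.1 none) (fun u => z.1 (some u)) z.2) = 0 := congrArg Prod.snd (congrArg Prod.snd h)
    refine ⟨fun h1 h2 => ?_, fun u hu => ?_, a2, fun u hu => ?_, ?_⟩
    · rwa [if_pos ⟨h1, h2⟩] at a3
    · have := a1 u
      rwa [if_neg hu] at this
    · have := a1 u
      rwa [if_pos hu] at this
    · by_cases hc : θ = 0 ∧ ∑ u ∈ m, d.bU u + ∑ l, d.bJ l = 1
      · rw [if_pos hc] at a3
        rw [a3]
        unfold srG
        rw [hc.1, hc.2]
        have h2 : (1 : ZMod 2) + 1 = 0 := by decide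
        simp [h2]
      · rwa [if_neg hc] at a3

theorem Phi_surj {d : Dat U J} (hd : GoodG d) (θ : ZMod 2) (m : Finset U) (i j : J)
    (hi : d.bJ i = 1) (hj : d.bJ j = 1) (hij : i ≠ j) :
    LinearMap.range (Phi d θ m i) = ⊤ := by
  by_contra hne
  obtain ⟨f, hf0, hf⟩ := Submodule.exists_le_ker_of_lt_top _ (lt_top_iff_ne_top.2 hne)
  set w : U → ZMod 2 := fun u => f (Pi.single u 1, 0, 0) with hw
  set c : ZMod 2 := f (0, 1, 0) with hc
  set μ : ZMod 2 := f (0, 0, 1) with hm
  have hfe : ∀ a : U → ZMod 2, ∀ e s : ZMod 2,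
      f (a, e, s) = ∑ u, a u * w u + e * c + s * μ := by
    intro a e s
    have h1 : ((a, e, s) : (U → ZMod 2) × ZMod 2 × ZMod 2) =
        ∑ u, a u • ((Pi.single u 1, 0, 0) : (U → ZMod 2) × ZMod 2 × ZMod 2) + e • (0, 1, 0) +
          s • (0, 0, 1) := by
      refine Prod.ext ?_ (Prod.ext ?_ ?_)
      · rw [Prod.fst_add, Prod.fst_add, Prod.fst_sum]
        simp only [Prod.smul_mk, smul_zero, add_zero]
        funext v
        rw [Finset.sum_apply, Finset.sum_eq_single v]
        · simp
        · intro u _ hu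
          rw [Pi.smul_apply, Pi.single_eq_of_ne (Ne.symm hu), smul_zero]
        · intro h
          exact absurd (Finset.mem_univ v) h
      · simp only [Prod.snd_add, Prod.fst_add, Prod.snd_sum, Prod.fst_sum]
        simp
      · simp only [Prod.snd_add, Prod.snd_sum]
        simp
    rw [h1, map_add, map_add, map_sum, map_smul, map_smul]
    simp only [map_smul, smul_eq_mul]
    rfl
  have hker : ∀ z : (Option U → ZMod 2) × (J → ZMod 2),
      ∑ u, (if u ∈ m then rS d θ m (z.1 none) (fun u => z.1 (some u)) z.2 u else z.1 (some u)) *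
        w u + z.2 i * c +
      (if θ = 0 ∧ ∑ u ∈ m, d.bU u + ∑ l, d.bJ l = 1 then z.1 none else
        srG d θ m (z.1 none) (fun u => z.1 (some u)) z.2) * μ = 0 := by
    intro z
    rw [← hfe]
    exact hf ⟨z, rfl⟩
  -- the unit vectors
  have hev : ∀ k : J, ∑ u, (if u ∈ m then d.B u k else 0) * w u +
      (Pi.single k (1 : ZMod 2) : J → ZMod 2) i * c +
      (if θ = 0 ∧ ∑ u ∈ m, d.bU u + ∑ l, d.bJ l = 1 then 0 else
        d.bJ k * (∑ v ∈ m, d.bU v + ∑ l, d.bJ l + 1) + θ * d.cJ k) * μ = 0 := by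
    intro k
    have h := hker (0, Pi.single k 1)
    have e1 : ∀ u, rS d θ m 0 (fun _ => 0) (Pi.single k 1) u = d.B u k := by
      intro u
      unfold rS
      simp only [add_zero, mul_zero, Finset.sum_const_zero, zero_add]
      exact sum_single k _
    have e2 : srG d θ m 0 (fun _ => 0) (Pi.single k 1) =
        d.bJ k * (∑ v ∈ m, d.bU v + ∑ l, d.bJ l + 1) + θ * d.cJ k := by
      unfold srG
      simp only [mul_zero, Finset.sum_const_zero, zero_add, add_zero]
      exact sum_single k _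
    simp only [Pi.zero_apply, e1, e2] at h
    exact h
  set w' : U → ZMod 2 := fun u => if u ∈ m then w u else 0 with hw'
  set w0 : ZMod 2 := if θ = 0 ∧ ∑ u ∈ m, d.bU u + ∑ l, d.bJ l = 1 then 0 else θ * μ with hw0d
  have hB : ∀ k, d.bJ k = 0 → ∀ u, d.B u k = d.C k u := by
    intro k hk u
    have h3 := hd.rB u k
    rw [hk, mul_zero] at h3
    exact CharTwo.add_eq_zero.1 h3
  have hw0' : (∀ u, w' u = 0) ∧ w0 = 0 := by
    by_contra hcon
    have hcon' : (∃ u, w' u ≠ 0) ∨ w0 ≠ 0 := by
      by_contra h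
      push Not at h
      exact hcon h
    obtain ⟨k, hk0, hk1⟩ := hd.nd w' w0 hcon'
    have hki : i ≠ k := by
      rintro rfl
      rw [hi] at hk0
      exact one_ne_zero hk0
    have h2 := hev k
    rw [Pi.single_eq_of_ne hki, zero_mul, add_zero] at h2
    apply hk1
    rw [← h2]
    congr 1
    · refine Finset.sum_congr rfl fun u _ => ?_
      rw [hw']
      dsimp only
      rw [hB k hk0]
      split_ifs
      · ring
      · ring
    · rw [hw0d]
      split_ifs
      · ring
      · rw [hk0]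
        ring
  obtain ⟨hwz, hw0z⟩ := hw0'
  have hs : ∀ a : U → ZMod 2, (∀ u, u ∉ m → a u = 0) → ∑ u, a u * w u = 0 := by
    intro a ha
    refine Finset.sum_eq_zero fun u _ => ?_
    by_cases hu : u ∈ m
    · have := hwz u
      rw [hw'] at this
      dsimp only at this
      rw [if_pos hu] at this
      rw [this, mul_zero]
    · rw [ha u hu, zero_mul]
  have hμ : μ = 0 := by
    by_cases hcc : θ = 0 ∧ ∑ u ∈ m, d.bU u + ∑ l, d.bJ l = 1
    · have h2 := hker (Pi.single none 1, 0)
      have e : ∀ u : U, (Pi.single none (1 : ZMod 2) : Option U → ZMod 2) (some u) = 0 :=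
        fun u => Pi.single_eq_of_ne (by simp) _
      rw [if_pos hcc, hs] at h2
      · simpa using h2
      · intro u hu
        rw [if_neg hu]
        exact e u
    · rcases zc θ with h | h
      · have hp : ∑ u ∈ m, d.bU u + ∑ l, d.bJ l = 0 := by
          apply par_cases
          intro hp
          exact hcc ⟨h, hp⟩
        have h2 := hev j
        rw [Pi.single_eq_of_ne hij, if_neg hcc, hs _ (fun u hu => if_neg hu), hj, hp, h] at h2
        simpa using h2
      · rw [hw0d, if_neg hcc, h, one_mul] at hw0z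
        exact hw0z
  have hc0 : c = 0 := by
    have h2 := hev i
    rw [hs _ (fun u hu => if_neg hu), hμ, mul_zero, add_zero, zero_add, Pi.single_eq_same,
      one_mul] at h2
    exact h2
  have hwn : ∀ u, w u = 0 := by
    intro u
    by_cases hu : u ∈ m
    · have := hwz u
      rw [hw'] at this
      dsimp only at this
      rwa [if_pos hu] at this
    · have h2 := hker (Pi.single (some u) 1, 0)
      rw [hμ, mul_zero, add_zero, hc0, mul_zero, add_zero, Finset.sum_eq_single u] at h2
      · rw [if_neg hu] at h2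
        simpa using h2
      · intro v _ hv
        by_cases hvm : v ∈ m
        · have := hwz v
          rw [hw'] at this
          dsimp only at this
          rw [if_pos hvm] at this
          rw [this, mul_zero]
        · rw [if_neg hvm]
          have e : (Pi.single (some u) (1 : ZMod 2) : Option U → ZMod 2) (some v) = 0 :=
            Pi.single_eq_of_ne (by simpa using hv) _
          show (Pi.single (some u) (1 : ZMod 2) : Option U → ZMod 2) (some v) * w v = 0
          rw [e, zero_mul]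
      · intro h
        exact absurd (Finset.mem_univ u) h
  apply hf0
  refine LinearMap.ext fun a => ?_
  have h4 := hfe a.1 a.2.1 a.2.2
  simp only [hwn, hc0, hμ, mul_zero, Finset.sum_const_zero, add_zero] at h4
  exact h4

theorem card_VG {d : Dat U J} (hd : GoodG d) (θ : ZMod 2) (m : Finset U) (i j : J)
    (hi : d.bJ i = 1) (hj : d.bJ j = 1) (hij : i ≠ j) :
    Nat.card (VG d θ m i) = 2 ^ (Fintype.card J - 1) := by
  have h0 : VG d θ m i = LinearMap.ker (Phi d θ m i) := by
    ext z
    exact mem_VG θ m i z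
  rw [h0, Module.natCard_eq_pow_finrank (K := ZMod 2), Nat.card_zmod]
  congr 1
  have h2 := LinearMap.finrank_range_add_finrank_ker (Phi d θ m i)
  rw [Phi_surj hd θ m i j hi hj hij, finrank_top, Module.finrank_prod, Module.finrank_prod,
    Module.finrank_prod, Module.finrank_fintype_fun_eq_card, Module.finrank_fintype_fun_eq_card,
    Module.finrank_fintype_fun_eq_card, Module.finrank_self, Fintype.card_option] at h2
  omega

/-! ### the involution -/

/-- the complement -/
noncomputable def cpl (θ : ZMod 2) (m : Finset U) (z : ZMod 2 × (U → ZMod 2) × (J → ZMod 2)) :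
    ZMod 2 × (U → ZMod 2) × (J → ZMod 2) :=
  (z.1 + θ, fun u => z.2.1 u + if u ∈ m then 1 else 0, fun k => z.2.2 k + 1)

theorem cpl_cpl (θ : ZMod 2) (m : Finset U) (z : ZMod 2 × (U → ZMod 2) × (J → ZMod 2)) :
    cpl θ m (cpl θ m z) = z := by
  have h2 : ∀ a b : ZMod 2, a + b + b = a := by decide
  unfold cpl
  exact Prod.ext (h2 _ _) (Prod.ext (funext fun u => h2 _ _) (funext fun k => h2 _ _))

theorem cpl_all (d : Dat U J) (θ : ZMod 2) (m : Finset U) (α : prs (univ : Finset J) → ZMod 2)
    (z : ZMod 2 × (U → ZMod 2) × (J → ZMod 2)) (hz : AllG d θ m α z) :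
    AllG d θ m α (cpl θ m z) := by
  obtain ⟨h0, h1, h2, h3⟩ := hz
  have e : ∀ a b : ZMod 2, (a + 1) + (b + 1) = a + b := by decide
  have e2 : ∀ a b t : ZMod 2, (a + t) + t * (b + 1) = a + t * b := by decide
  refine ⟨fun hθ hp => ?_, fun u hu => ?_, fun u hu => ?_, fun k => ?_⟩
  · show z.1 + θ = 0
    rw [h0 hθ hp, hθ, add_zero]
  · show z.2.1 u + (if u ∈ m then 1 else 0) = 0
    rw [h1 u hu, if_neg hu, add_zero]
  · rw [← h2 u hu]
    congr 1
    · congr 1
      · refine Finset.sum_congr rfl fun v hv => ?_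
        show d.A u v * ((z.2.1 v + if v ∈ m then 1 else 0) + (z.2.1 u + if u ∈ m then 1 else 0)) = _
        rw [if_pos hv, if_pos hu, e]
      · refine Finset.sum_congr rfl fun l _ => ?_
        show d.B u l * ((z.2.2 l + 1) + (z.2.1 u + if u ∈ m then 1 else 0)) = _
        rw [if_pos hu, e]
    · show d.cU u * ((z.1 + θ) + θ * (z.2.1 u + if u ∈ m then 1 else 0)) = _
      rw [if_pos hu, e2]
  · rw [← h3 k]
    congr 1
    · congr 1
      · refine Finset.sum_congr rfl fun u hu => ?_
        show d.C k u * ((z.2.1 u + if u ∈ m then 1 else 0) + (z.2.2 k + 1)) = _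
        rw [if_pos hu, e]
      · refine Finset.sum_congr rfl fun l _ => ?_
        show ex2 (tt d) α k l * ((z.2.2 l + 1) + (z.2.2 k + 1)) = _
        rw [e]
    · show d.cJ k * ((z.1 + θ) + θ * (z.2.2 k + 1)) = _
      rw [e2]

/-! ### the reduced system -/

/-- the translation of the vectors -/
def tr (z : ZMod 2 × (U → ZMod 2) × (J → ZMod 2)) : (Option U → ZMod 2) × (J → ZMod 2) :=
  (fun o => match o with
    | none => z.1
    | some u => z.2.1 u, z.2.2)

theorem tr_inj : Function.Injective (tr : ZMod 2 × (U → ZMod 2) × (J → ZMod 2) → _) := by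
  intro z z' h
  have h1 : (tr z).1 = (tr z').1 := congrArg Prod.fst h
  have h2 : (tr z).2 = (tr z').2 := congrArg Prod.snd h
  exact Prod.ext (congrFun h1 none) (Prod.ext (funext fun u => congrFun h1 (some u)) h2)

theorem tr_surj (y : (Option U → ZMod 2) × (J → ZMod 2)) :
    tr (y.1 none, (fun u => y.1 (some u)), y.2) = y := by
  refine Prod.ext (funext fun o => ?_) rfl
  cases o <;> rfl

theorem row_eq {M : ℕ} (d : Dat U J) (θ : Fin M → ZMod 2) (mm : Fin M → Finset U) (i : J) (a : Fin M)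
    (α : prs (univ : Finset J) → ZMod 2) (z : ZMod 2 × (U → ZMod 2) × (J → ZMod 2))
    (hz : ∀ u, u ∉ mm a → z.2.1 u = 0) (k : J) :
    ∑ u, (toS d θ mm i).C k u * (tr z).1 u + (toS d θ mm i).g a k * (tr z).2 k +
      ∑ l, ex2 (fun k l => (toS d θ mm i).b k * (toS d θ mm i).b l) α k l *
        ((tr z).2 l + (tr z).2 k) = rL d (θ a) (mm a) α z.1 z.2.1 z.2.2 k := by
  rw [Fintype.sum_option]
  show d.cJ k * z.1 + ∑ u, d.C k u * z.2.1 u + (∑ u ∈ mm a, d.C k u + θ a * d.cJ k) * z.2.2 k +
    ∑ l, ex2 (tt d) α k l * (z.2.2 l + z.2.2 k) = _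
  have e : ∑ u, d.C k u * z.2.1 u = ∑ u ∈ mm a, d.C k u * z.2.1 u := by
    symm
    refine Finset.sum_subset (Finset.subset_univ _) fun u _ hu => ?_
    rw [hz u hu, mul_zero]
  rw [e]
  unfold rL
  simp only [mul_add, Finset.sum_add_distrib, add_mul, Finset.sum_mul]
  ring

theorem red_iff {M : ℕ} {d : Dat U J} (hd : GoodG d) (θ : Fin M → ZMod 2) (mm : Fin M → Finset U)
    (i : J) (a : Fin M) (α : prs (univ : Finset J) → ZMod 2)
    (z : ZMod 2 × (U → ZMod 2) × (J → ZMod 2)) :
    (AllG d (θ a) (mm a) α z ∧ z.2.2 i = 0) ↔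
      (tr z ∈ (toS d θ mm i).V a ∧ Lr (toS d θ mm i) i a α (tr z)) := by
  have hsum := sum_all hd (θ a) (mm a) α z.1 z.2.1 z.2.2
  constructor
  · rintro ⟨⟨h0, h1, h2, h3⟩, h4⟩
    refine ⟨⟨h0, h1, h4, h2, ?_⟩, fun k _ => ?_⟩
    · show srG d (θ a) (mm a) z.1 z.2.1 z.2.2 = 0
      rw [← hsum]
      have e1 : ∑ u ∈ mm a, rS d (θ a) (mm a) z.1 z.2.1 z.2.2 u = 0 :=
        Finset.sum_eq_zero fun u hu => h2 u hu
      have e2 : ∑ k, rL d (θ a) (mm a) α z.1 z.2.1 z.2.2 k = 0 :=
        Finset.sum_eq_zero fun k _ => h3 k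
      rw [e1, e2, add_zero]
    · rw [row_eq d θ mm i a α z h1]
      exact h3 k
  · rintro ⟨⟨h0, h1, h4, h2, h5⟩, h3⟩
    have h5' : srG d (θ a) (mm a) z.1 z.2.1 z.2.2 = 0 := h5
    have h1' : ∀ u, u ∉ mm a → z.2.1 u = 0 := h1
    have h3' : ∀ k ∈ univ.erase i, rL d (θ a) (mm a) α z.1 z.2.1 z.2.2 k = 0 := by
      intro k hk
      rw [← row_eq d θ mm i a α z h1']
      exact h3 k hk
    refine ⟨⟨h0, h1, h2, fun k => ?_⟩, h4⟩
    by_cases hk : k = i
    · rw [hk]
      rw [h5'] at hsum
      have e1 : ∑ u ∈ mm a, rS d (θ a) (mm a) z.1 z.2.1 z.2.2 u = 0 :=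
        Finset.sum_eq_zero fun u hu => h2 u hu
      rw [e1, zero_add, ← Finset.add_sum_erase _ _ (Finset.mem_univ i),
        Finset.sum_eq_zero h3', add_zero] at hsum
      exact hsum
    · exact h3' k (Finset.mem_erase.2 ⟨hk, Finset.mem_univ _⟩)

end SYS

open SYS

theorem t_GSYS : S_GSYS := by
  intro U J _ _ _ d hd M θ mm i j hi hj hij
  refine ⟨⟨hi, ?_, ?_, ?_⟩, ?_⟩
  · intro a z hz
    exact hz.2.2.1
  · intro a
    exact card_VG hd (θ a) (mm a) i j hi hj hij
  · intro a z hz h2 h3
    by_contra hne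
    have hne' : (∃ u, z.1 (some u) ≠ 0) ∨ z.1 none ≠ 0 := by
      by_contra h
      push Not at h
      apply hne
      refine Prod.ext (funext fun o => ?_) h2
      cases o with
      | none => exact h.2
      | some u => exact h.1 u
    obtain ⟨k, hk0, hk1⟩ := hd.nd (fun u => z.1 (some u)) (z.1 none) hne'
    have hki : k ≠ i := by
      rintro rfl
      rw [hi] at hk0
      exact one_ne_zero hk0
    have h4 := h3 k (Finset.mem_erase.2 ⟨hki, Finset.mem_univ _⟩)
    rw [Fintype.sum_option] at h4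
    apply hk1
    rw [← h4, add_comm]
    congr 1
    · exact mul_comm _ _
    · exact Finset.sum_congr rfl fun u _ => mul_comm _ _
  · intro a α
    have e1 : nn (toS d θ mm i) i a α =
        ((univ.filter fun z : ZMod 2 × (U → ZMod 2) × (J → ZMod 2) => AllG d (θ a) (mm a) α z).filter
          fun z => z.2.2 i = 0).card := by
      unfold nn
      symm
      refine Finset.card_bij (fun z _ => tr z) ?_ ?_ ?_
      · intro z hz
        rw [mem_filter, mem_filter] at hz
        rw [mem_filter]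
        exact ⟨@mem_univ _ (_) _, (red_iff hd θ mm i a α z).1 ⟨hz.1.2, hz.2⟩⟩
      · intro z _ z' _ h
        exact tr_inj h
      · intro y hy
        rw [mem_filter] at hy
        refine ⟨(y.1 none, (fun u => y.1 (some u)), y.2), ?_, tr_surj y⟩
        rw [mem_filter, mem_filter]
        have h := (red_iff hd θ mm i a α (y.1 none, (fun u => y.1 (some u)), y.2)).2
          (by rw [tr_surj]; exact hy.2)
        exact ⟨⟨mem_univ _, h.1⟩, h.2⟩
    have e2 : ((univ.filter fun z : ZMod 2 × (U → ZMod 2) × (J → ZMod 2) =>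
          AllG d (θ a) (mm a) α z).filter fun z => ¬ z.2.2 i = 0).card =
        ((univ.filter fun z : ZMod 2 × (U → ZMod 2) × (J → ZMod 2) =>
          AllG d (θ a) (mm a) α z).filter fun z => z.2.2 i = 0).card := by
      have h3 : ∀ b : ZMod 2, b ≠ 0 → b + 1 = 0 := by decide
      have h4 : ∀ b : ZMod 2, b = 0 → ¬ b + 1 = 0 := by decide
      refine Finset.card_bij (fun z _ => cpl (θ a) (mm a) z) ?_ ?_ ?_
      · intro z hz
        rw [mem_filter, mem_filter] at hz ⊢
        exact ⟨⟨mem_univ _, cpl_all d (θ a) (mm a) α z hz.1.2⟩, h3 _ hz.2⟩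
      · intro z _ w _ h
        rw [← cpl_cpl (θ a) (mm a) z, h, cpl_cpl]
      · intro w hw
        rw [mem_filter, mem_filter] at hw
        refine ⟨cpl (θ a) (mm a) w, ?_, cpl_cpl _ _ _⟩
        rw [mem_filter, mem_filter]
        exact ⟨⟨mem_univ _, cpl_all d (θ a) (mm a) α w hw.1.2⟩, h4 _ hw.2⟩
    have e3 := Finset.card_filter_add_card_filter_not
      (s := univ.filter fun z : ZMod 2 × (U → ZMod 2) × (J → ZMod 2) => AllG d (θ a) (mm a) α z)
      (fun z => z.2.2 i = 0)
    unfold nG
    rw [e1, ← e3, e2, two_mul]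

end Pool.Agent.NH4.XG
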