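import Pool.Agent.NH4.XG.LA
import Pool.Agent.NH4.XG.SYS
import Pool.Agent.NH4.XG.RAD
import Pool.Agent.NH4.XG.BOX
import Pool.Agent.NH4.XG.Key
import Pool.Agent.NH4.XG.MER
import Pool.Agent.NH4.XG.SEP
import Pool.Agent.NH4.XG.Asy
import Pool.Agent.NH4.XG.NS
import Pool.Agent.NH4.XJ.Fin
import Pool.Agent.NH3.XE.Fin

/-!
# Project XG: the joint law of the four-ranks of the class groups of `ℚ(√(-N m_a))`, all discriminants,
unconditionally

Joint work: helper2 (the system), helper70, helper45 (the radical), helper10 (boxes), helper91 (sum over the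
boxes), helper78 (Mertens), helper26 (separating primes), helper90 (asymptotics), helper87 (translation),
helper4 (statements, moments), and the authors of the projects XE, XJ, XD, PJ, PR, JQ, CQ.
-/

set_option autoImplicit false

namespace Pool.Agent.NH4.XG

open Pool.Agent.NH4.PJ (t_M1 t_M2 t_ABS t_LAW)
open Pool.Agent.NH4.XJ (t_XPRB t_XISO)

theorem f_GLA : S_GLA := t_GLA t_ABS (t_GMOM t_M1 t_M2 t_XPRB t_ARAD t_XISO) t_GSYS

theorem f_XGQ : S_XGQ :=
  t_GASY Pool.Agent.NH5.PR.t_BIL Pool.Agent.Y356.CQ.t_EQ f_GLA t_LAW t_GBOX t_GKEY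
    Pool.Agent.NH3.XD.t_XCNT Pool.Agent.Y488.CX.t_SIE Pool.Agent.NH3.XE.t_EHAL
    Pool.Agent.NH3.XE.t_EBAD Pool.Agent.Y405.CQ.t_MER Pool.Agent.NH4.XJ.t_XJFEW t_GMER t_GSEP
    Pool.Agent.NH4.XJ.t_XJLOW

theorem f_XGDEN : S_XGDEN := t_GNS f_XGQ

end Pool.Agent.NH4.XG
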