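import Pool.Agent.NH4.XG.MOM

/-!
# Project XG: the joint law for a random completion
-/

set_option autoImplicit false
set_option linter.unusedSectionVars false
set_option linter.unusedVariables false

open scoped Classical

namespace Pool.Agent.NH4.XG

open Finset
open Pool.Agent.Y703.CQ (prs)
open Pool.Agent.NH4.PJ (S_ABS law)

theorem t_GLA (ha : S_ABS) (hm : S_GMOM) (hs : S_GSYS) : S_GLA := by
  intro M rr ε hε
  obtain ⟨n, θ₀, hθ, H⟩ := ha M 0 rr ε hε
  choose C L hC hM using hm M
  set K : Finset (Fin M → ℕ) := Fintype.piFinset fun _ : Fin M => range (n + 1) with hK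
  have hmem : ∀ k : Fin M → ℕ, (∀ i, k i ≤ n) → k ∈ K := by
    intro k hk
    rw [hK, Fintype.mem_piFinset]
    intro i
    rw [mem_range]
    exact Nat.lt_succ_of_le (hk i)
  obtain ⟨R, hR⟩ := pow_unbounded_of_one_lt ((∑ k ∈ K, C k) / θ₀) (by norm_num : (1 : ℝ) < 2)
  refine ⟨∑ k ∈ K, L k, (∑ k ∈ K, L k) + R + 2, ?_⟩
  intro U J _ _ _ d θ mm hg h1 h2
  obtain ⟨i, hi, j, hj, hij⟩ := Finset.one_lt_card.1
    (show 1 < (univ.filter fun l => d.bJ l = 1).card by omega)
  rw [mem_filter] at hi hj
  obtain ⟨hG, hN⟩ := hs U J d hg M θ mm i j hi.2 hj.2 hij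
  set D := toS d θ mm i with hD
  have hcard : (Fintype.card (prs (univ : Finset J) → ZMod 2) : ℝ) =
      2 ^ (prs (univ : Finset J)).card := by
    rw [Fintype.card_fun, ZMod.card, Fintype.card_coe]
    push_cast
    rfl
  have hcU : Fintype.card (Option U) = Fintype.card U + 1 := Fintype.card_option
  have h3 := H (prs (univ : Finset J) → ZMod 2) (fun a ω => nn D i a ω) (fun _ => 0)
    (fun a ω => Mom.nn_pow D i a ω) (fun _ => by simp) ?_
  · rw [hcard] at h3
    have e : (univ.filter fun α : prs (univ : Finset J) → ZMod 2 =>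
        ∀ a, nG d (θ a) (mm a) α = 2 ^ (rr a + 1)) =
        univ.filter fun α : prs (univ : Finset J) → ZMod 2 => ∀ a, nn D i a α = 2 ^ rr a := by
      refine Finset.filter_congr fun α _ => forall_congr' fun a => ?_
      rw [hN a α, pow_succ]
      omega
    rw [e]
    exact h3
  · intro k hk
    rw [hcard]
    have h4 := hM k (Option U) J D i ((∑ k ∈ K, L k) * Fintype.card (Option U) + R) hG
      (by
        rw [hcU, mul_add, mul_one]
        have : (univ.filter fun l => D.b l = 1).card = (univ.filter fun l => d.bJ l = 1).card := rfl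
        omega)
      (by
        intro a b hab
        have h5 := h2 a b hab
        have e1 : (univ.filter fun k => D.b k = 0 ∧ D.g a k + D.g b k ≠ 0).card =
            (univ.filter fun k => d.bJ k = 0 ∧
              ∑ u ∈ mm a, d.C k u + ∑ u ∈ mm b, d.C k u + (θ a + θ b) * d.cJ k ≠ 0).card := by
          congr 1
          ext k
          simp only [mem_filter, mem_univ, true_and]
          have e2 : D.g a k + D.g b k =
              ∑ u ∈ mm a, d.C k u + ∑ u ∈ mm b, d.C k u + (θ a + θ b) * d.cJ k := by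
            show (∑ u ∈ mm a, d.C k u + θ a * d.cJ k) + (∑ u ∈ mm b, d.C k u + θ b * d.cJ k) = _
            ring
          rw [e2]
          exact Iff.rfl
        rw [hcU, mul_add, mul_one, e1]
        omega)
    have e1 : ∏ a : Fin M, (2 : ℝ) ^ ((k a : ℤ) * (0 : ℤ)) = 1 := by simp
    rw [e1]
    refine h4.trans ?_
    have hkK := hmem k hk
    have hL : L k ≤ ∑ k ∈ K, L k := Finset.single_le_sum (fun _ _ => Nat.zero_le _) hkK
    have hCk : C k ≤ ∑ k ∈ K, C k := Finset.single_le_sum (fun k _ => (hC k).le) hkK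
    have hR' : ∑ k ∈ K, C k ≤ θ₀ * 2 ^ R := by
      rw [div_lt_iff₀ hθ] at hR
      linarith [hR]
    rw [div_le_iff₀ (by positivity), pow_add]
    have hLp : (2 : ℝ) ^ (L k * Fintype.card (Option U)) ≤
        2 ^ ((∑ k ∈ K, L k) * Fintype.card (Option U)) :=
      pow_le_pow_right₀ (by norm_num) (Nat.mul_le_mul_right _ hL)
    calc C k * 2 ^ (L k * Fintype.card (Option U))
        ≤ (θ₀ * 2 ^ R) * 2 ^ ((∑ k ∈ K, L k) * Fintype.card (Option U)) := by
          apply mul_le_mul (hCk.trans hR') hLp (by positivity) (by positivity)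
      _ = θ₀ * (2 ^ ((∑ k ∈ K, L k) * Fintype.card (Option U)) * 2 ^ R) := by ring

end Pool.Agent.NH4.XG
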