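import Pool.Agent.NH4.XG.Stm
import Pool.Agent.NH4.PJ.MOM

/-!
# Project XG: the mixed moments of the abstract systems, part A
-/

set_option autoImplicit false
set_option linter.unusedSectionVars false
set_option linter.unusedVariables false

open scoped Classical

namespace Pool.Agent.NH4.XG.Mom

open Finset Module
open Pool.Agent.Y703.CQ (prs)
open Pool.Agent.NH5.PR (ex2)
open Pool.Agent.NH4.PJ (inj rs S_M1 S_M2 S_M3 Dep)
open Pool.Agent.NH4.PJ.Mom (F Ix yf xf LiF dp px py px_apply py_apply card_li ze cnt_le f2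
  exists_orth half cardW_pos Wf Hf mem_Wf mem_Hf card_Wf card_Hf Ib)

section

variable {U J : Type} [Fintype U] [Fintype J] [LinearOrder J] {M : ℕ}

/-- the correction of the reciprocity law -/
def ta (d : Sys U J M) : J → J → F := fun k l => d.b k * d.b l

/-- a large row -/
noncomputable def rowA (d : Sys U J M) (a : Fin M) (α : prs (univ : Finset J) → F) (k : J) :
    ((U → F) × (J → F)) →ₗ[F] F :=
  ∑ u, d.C k u • px u + d.g a k • py k + ∑ l, ex2 (ta d) α k l • (py l + py k)

theorem rowA_apply (d : Sys U J M) (a : Fin M) (α : prs (univ : Finset J) → F) (k : J)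
    (z : (U → F) × (J → F)) : rowA d a α k z = ∑ u, d.C k u * z.1 u + d.g a k * z.2 k +
      ∑ l, ex2 (ta d) α k l * (z.2 l + z.2 k) := by
  unfold rowA
  simp only [LinearMap.add_apply, LinearMap.sum_apply, LinearMap.smul_apply, px_apply, py_apply,
    smul_eq_mul]

/-- the solutions of a system -/
noncomputable def SolA (d : Sys U J M) (i : J) (a : Fin M) (α : prs (univ : Finset J) → F) :
    Submodule F ((U → F) × (J → F)) where
  carrier := {z | z ∈ d.V a ∧ ∀ k ∈ univ.erase i, rowA d a α k z = 0}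
  add_mem' := by
    rintro z w ⟨a1, a2⟩ ⟨b1, b2⟩
    refine ⟨Submodule.add_mem _ a1 b1, fun k hk => ?_⟩
    rw [map_add, a2 k hk, b2 k hk, add_zero]
  zero_mem' := ⟨Submodule.zero_mem _, fun k _ => by rw [map_zero]⟩
  smul_mem' := by
    rintro c z ⟨a1, a2⟩
    refine ⟨Submodule.smul_mem _ _ a1, fun k hk => ?_⟩
    rw [map_smul, a2 k hk, smul_zero]

theorem mem_SolA (d : Sys U J M) (i : J) (a : Fin M) (α : prs (univ : Finset J) → F)
    (z : (U → F) × (J → F)) : z ∈ SolA d i a α ↔ z ∈ d.V a ∧ Lr d i a α z := by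
  show (z ∈ d.V a ∧ ∀ k ∈ univ.erase i, rowA d a α k z = 0) ↔ _
  unfold Lr
  simp only [rowA_apply]
  exact Iff.rfl

theorem nn_eq (d : Sys U J M) (i : J) (a : Fin M) (α : prs (univ : Finset J) → F) :
    nn d i a α = Nat.card (SolA d i a α) := by
  unfold nn
  rw [← Fintype.card_subtype, ← Nat.card_eq_fintype_card]
  exact Nat.card_congr (Equiv.subtypeEquivRight fun z => (mem_SolA d i a α z).symm)

theorem nn_pow (d : Sys U J M) (i : J) (a : Fin M) (α : prs (univ : Finset J) → F) :
    ∃ κ : ℕ, nn d i a α = 2 ^ κ := by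
  refine ⟨finrank F (SolA d i a α), ?_⟩
  rw [nn_eq, Module.natCard_eq_pow_finrank (K := F) (V := SolA d i a α), Nat.card_zmod]

theorem prod_inj (d : Sys U J M) (i : J) (k : Fin M → ℕ) (α : prs (univ : Finset J) → F) :
    ∏ a, inj (k a) (nn d i a α) =
      (Nat.card {z : Ix k → (U → F) × (J → F) // (∀ s, z s ∈ SolA d i s.1 α) ∧ LiF k z} : ℝ) := by
  have e : {z : Ix k → (U → F) × (J → F) // (∀ s, z s ∈ SolA d i s.1 α) ∧ LiF k z} ≃
      ((a : Fin M) → {f : Fin (k a) → (U → F) × (J → F) // (∀ t, f t ∈ SolA d i a α) ∧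
        LinearIndependent F f}) :=
    { toFun := fun z a => ⟨fun t => z.1 ⟨a, t⟩, fun t => z.2.1 ⟨a, t⟩, z.2.2 a⟩
      invFun := fun g => ⟨fun s => (g s.1).1 s.2, fun s => (g s.1).2.1 s.2, fun a => (g a).2.2⟩
      left_inv := fun z => rfl
      right_inv := fun g => rfl }
  rw [Nat.card_congr e, Nat.card_pi]
  push_cast
  refine Finset.prod_congr rfl fun a _ => ?_
  rw [card_li, nn_eq]

/-- the constant parts of the large rows -/
def cA {S : Type} (d : Sys U J M) (m : S → Fin M) (z : S → (U → F) × (J → F)) :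
    J → S → F := fun k s => ∑ u, d.C k u * (z s).1 u + d.g (m s) k * (z s).2 k

/-- the number of the completions for which a family satisfies the large rows -/
noncomputable def Aa {S : Type} (d : Sys U J M) (i : J) (m : S → Fin M)
    (z : S → (U → F) × (J → F)) : ℕ :=
  (univ.filter fun α : prs (univ : Finset J) → F => ∀ s, Lr d i (m s) α (z s)).card

theorem Aa_eq {S : Type} (d : Sys U J M) (i : J) (m : S → Fin M) (z : S → (U → F) × (J → F))
    (h : DecidablePred fun α : prs (univ : Finset J) → F => ∀ k ∈ univ.erase i, ∀ s,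
      cA d m z k s + ∑ l, ex2 (ta d) α k l * (yf z l s + yf z k s) = 0) :
    (univ.filter fun α : prs (univ : Finset J) → F => ∀ k ∈ univ.erase i, ∀ s,
      cA d m z k s + ∑ l, ex2 (ta d) α k l * (yf z l s + yf z k s) = 0).card = Aa d i m z := by
  unfold Aa
  have e : (univ.filter fun α : prs (univ : Finset J) → F => ∀ k ∈ univ.erase i, ∀ s,
      cA d m z k s + ∑ l, ex2 (ta d) α k l * (yf z l s + yf z k s) = 0) =
      univ.filter fun α : prs (univ : Finset J) → F => ∀ s, Lr d i (m s) α (z s) := by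
    ext α
    rw [mem_filter, mem_filter]
    refine and_congr_right fun _ => ?_
    unfold Lr cA yf
    constructor
    · intro h s k hk
      exact h k hk s
    · intro h k hk s
      exact h s k hk
  rw [e]

theorem sum_prod (d : Sys U J M) (i : J) (k : Fin M → ℕ) :
    ∑ α : prs (univ : Finset J) → F, ∏ a, inj (k a) (nn d i a α) =
      ∑ z ∈ univ.filter (fun z : Ix k → (U → F) × (J → F) =>
        (∀ s, z s ∈ d.V s.1) ∧ LiF k z), (Aa d i (fun s => s.1) z : ℝ) := by
  simp only [prod_inj]
  have h1 : ∀ α : prs (univ : Finset J) → F,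
      (Nat.card {z : Ix k → (U → F) × (J → F) // (∀ s, z s ∈ SolA d i s.1 α) ∧ LiF k z} : ℝ) =
      ∑ z ∈ univ.filter (fun z : Ix k → (U → F) × (J → F) => (∀ s, z s ∈ d.V s.1) ∧ LiF k z),
        if ∀ s, Lr d i s.1 α (z s) then (1 : ℝ) else 0 := by
    intro α
    rw [Finset.sum_boole, Finset.filter_filter, Nat.card_eq_fintype_card, Fintype.card_subtype]
    congr 2
    ext z
    simp only [mem_filter, mem_univ, true_and, mem_SolA]
    constructor
    · rintro ⟨h, h'⟩
      exact ⟨⟨fun s => (h s).1, h'⟩, fun s => (h s).2⟩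
    · rintro ⟨⟨h, h'⟩, h2⟩
      exact ⟨fun s => ⟨h s, h2 s⟩, h'⟩
  simp only [h1]
  rw [Finset.sum_comm]
  refine Finset.sum_congr rfl fun z _ => ?_
  unfold Aa
  rw [Finset.sum_boole]
  refine congrArg Nat.cast (congrArg Finset.card ?_)
  ext α
  simp only [mem_filter]

/-- the small rows for a family -/
def VF {S : Type} (d : Sys U J M) (m : S → Fin M) (z : S → (U → F) × (J → F)) : Prop :=
  ∀ s, z s ∈ d.V (m s)

theorem yf_zero {S : Type} {d : Sys U J M} {i : J} (hg : d.Good i) {m : S → Fin M}
    {z : S → (U → F) × (J → F)} (h : VF d m z) : yf z i = 0 := by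
  funext s
  exact hg.zi _ _ (h s)

theorem non_A {S : Type} [Fintype S] (h1 : S_M1) (h2 : S_M2) {d : Sys U J M} {i : J}
    (hg : d.Good i) {m : S → Fin M} {z : S → (U → F) × (J → F)} (h : VF d m z) :
    (Aa d i m z : ℝ) * (Nat.card (rs (yf z) Set.univ) : ℝ) ^ (Fintype.card J - 1) ≤
      2 ^ (prs (univ : Finset J)).card * 2 ^ (Fintype.card S ^ 2) := by
  have h3 := (h1 J S (univ.erase i) (ta d) (yf z) (cA d m z)
    ⟨i, by simp, yf_zero hg h⟩).1
  have h4 : (univ.filter fun c : J → S → ZMod 2 => Dep (univ.erase i) (yf z) c).card *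
      Nat.card (rs (yf z) Set.univ) ^ (univ.erase i).card ≤
        2 ^ (Fintype.card S ^ 2 + Fintype.card S * (univ.erase i).card) := by
    refine le_trans (le_of_eq ?_) (h2 J S (univ.erase i) (yf z)).1
    congr
    all_goals (funext a b; exact Subsingleton.elim _ _)
  rw [Aa_eq] at h3
  have hc : (univ.erase i).card = Fintype.card J - 1 := by
    rw [Finset.card_erase_of_mem (mem_univ _), card_univ]
  rw [hc] at h3 h4
  set w := Nat.card (rs (yf z) Set.univ) with hw
  set n := Fintype.card J - 1 with hn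
  have h5 : Aa d i m z * 2 ^ (n * Fintype.card S) * w ^ n ≤
      2 ^ (prs (univ : Finset J)).card * 2 ^ (Fintype.card S ^ 2 + Fintype.card S * n) :=
    calc _ ≤ (2 ^ (prs (univ : Finset J)).card *
        (univ.filter fun c : J → S → ZMod 2 => Dep (univ.erase i) (yf z) c).card) * w ^ n :=
          Nat.mul_le_mul_right _ h3
      _ = 2 ^ (prs (univ : Finset J)).card *
        ((univ.filter fun c : J → S → ZMod 2 => Dep (univ.erase i) (yf z) c).card * w ^ n) := by
          ring
      _ ≤ _ := Nat.mul_le_mul_left _ h4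
  have h6 : (Aa d i m z * w ^ n) * 2 ^ (n * Fintype.card S) ≤
      (2 ^ (prs (univ : Finset J)).card * 2 ^ (Fintype.card S ^ 2)) *
        2 ^ (n * Fintype.card S) := by
    calc _ = Aa d i m z * 2 ^ (n * Fintype.card S) * w ^ n := by ring
      _ ≤ _ := h5
      _ = _ := by
        rw [pow_add, Nat.mul_comm (Fintype.card S) n]
        ring
  have h7 := Nat.le_of_mul_le_mul_right h6 (by positivity)
  exact_mod_cast h7

theorem exists_al {S : Type} {d : Sys U J M} {i : J} {m : S → Fin M}
    {z : S → (U → F) × (J → F)} (h : Aa d i m z ≠ 0) :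
    ∃ α : prs (univ : Finset J) → F, ∀ s, Lr d i (m s) α (z s) := by
  unfold Aa at h
  rw [Finset.card_ne_zero] at h
  obtain ⟨α, hα⟩ := h
  exact ⟨α, (mem_filter.1 hα).2⟩

/-- the vector of a large row -/
def clA (d : Sys U J M) (k : Fin M → ℕ) (c : Ix k → F) (l : J) : Ix k → F :=
  fun s => c s * d.g s.1 l

/-- the constant of a large row -/
def blA (d : Sys U J M) (k : Fin M → ℕ) (c : Ix k → F) (l : J) (x : Ix k → U → F) : F :=
  ∑ s, c s * ∑ u, d.C l u * x s u

/-- a linear combination of the large rows -/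
theorem comb (d : Sys U J M) (i : J) (k : Fin M → ℕ) (c : Ix k → F)
    {z : Ix k → (U → F) × (J → F)} {α : prs (univ : Finset J) → F}
    (hα : ∀ s, Lr d i s.1 α (z s)) (hc : ∀ l, dp c (yf z l) = 0) {l : J} (hl : l ∈ univ.erase i) :
    dp (clA d k c l) (yf z l) = blA d k c l (xf z) := by
  have h1 : ∑ s, c s * (∑ u, d.C l u * (z s).1 u + d.g s.1 l * (z s).2 l +
      ∑ l', ex2 (ta d) α l l' * ((z s).2 l' + (z s).2 l)) = 0 := by
    refine Finset.sum_eq_zero fun s _ => ?_
    have := hα s l hl
    unfold ta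
    rw [this, mul_zero]
  have h2 : ∑ s, c s * (∑ u, d.C l u * (z s).1 u + d.g s.1 l * (z s).2 l +
      ∑ l', ex2 (ta d) α l l' * ((z s).2 l' + (z s).2 l)) =
      (blA d k c l (xf z) + dp (clA d k c l) (yf z l)) +
      (∑ l', ex2 (ta d) α l l' * (dp c (yf z l') + dp c (yf z l))) := by
    unfold blA dp clA xf yf
    have e1 : ∀ s : Ix k, c s * (∑ u, d.C l u * (z s).1 u + d.g s.1 l * (z s).2 l +
        ∑ l', ex2 (ta d) α l l' * ((z s).2 l' + (z s).2 l)) =
        (c s * ∑ u, d.C l u * (z s).1 u) + (c s * d.g s.1 l) * (z s).2 l +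
        (∑ l', ex2 (ta d) α l l' * (c s * (z s).2 l' + c s * (z s).2 l)) := by
      intro s
      have e3 : c s * ∑ l', ex2 (ta d) α l l' * ((z s).2 l' + (z s).2 l) =
          ∑ l', ex2 (ta d) α l l' * (c s * (z s).2 l' + c s * (z s).2 l) := by
        rw [Finset.mul_sum]
        refine Finset.sum_congr rfl fun l' _ => by ring
      rw [mul_add, mul_add, e3]
      ring
    rw [Finset.sum_congr rfl fun s _ => e1 s, Finset.sum_add_distrib, Finset.sum_add_distrib,
      Finset.sum_comm (s := univ) (t := univ)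
        (f := fun (s : Ix k) (l' : J) => ex2 (ta d) α l l' * (c s * (z s).2 l' + c s * (z s).2 l))]
    congr 1
    refine Finset.sum_congr rfl fun l' _ => ?_
    rw [← Finset.mul_sum, Finset.sum_add_distrib]
  rw [h1] at h2
  simp only [hc, add_zero, mul_zero, Finset.sum_const_zero] at h2
  have h3 : ∀ a b : F, 0 = a + b → b = a := by decide
  exact h3 _ _ h2

/-- few degenerate families -/
theorem count2 (d : Sys U J M) (i : J) (k : Fin M → ℕ) (hg : d.Good i) (V : ℕ)
    (hV : ∀ a b, a ≠ b → V ≤ ((univ.erase i).filter fun l => d.g a l + d.g b l ≠ 0).card)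
    {W : Submodule F (Ix k → F)} (hW : W ≠ ⊤) (T : Finset (Ix k → (U → F) × (J → F)))
    (hT : ∀ z ∈ T, (VF d (fun s : Ix k => s.1) z ∧ LiF k z) ∧ rs (yf z) Set.univ = W ∧
      Aa d i (fun s : Ix k => s.1) z ≠ 0) :
    (T.card : ℝ) * 2 ^ V ≤
    2 ^ (Fintype.card (Ix k) * Fintype.card U) * (Nat.card W : ℝ) ^ (Fintype.card J - 1) := by
  obtain ⟨c₁, hc₁, hc₁'⟩ := exists_orth hW
  obtain ⟨c, hc, hmin⟩ := Finset.exists_min_image
    (univ.filter fun c : Ix k → F => c ≠ 0 ∧ ∀ w ∈ W, dp c w = 0) (fun c => (Ib k c).card)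
    ⟨c₁, mem_filter.2 ⟨mem_univ _, hc₁, hc₁'⟩⟩
  rw [mem_filter] at hc
  obtain ⟨-, hc0, hcW⟩ := hc
  have hR : (0 : ℝ) ≤ 2 ^ (Fintype.card (Ix k) * Fintype.card U) *
      (Nat.card W : ℝ) ^ (Fintype.card J - 1) := by
    positivity
  obtain ⟨s₀, hs₀⟩ : ∃ s, c s ≠ 0 := by
    by_contra hcon
    push Not at hcon
    exact hc0 (funext hcon)
  by_cases hone : ∀ a ∈ Ib k c, a = s₀.1
  · -- one block
    have hemp : T = ∅ := by
      rw [Finset.eq_empty_iff_forall_notMem]
      intro z hzT
      obtain ⟨⟨hz1, hz2⟩, hz3, hz4⟩ := hT z hzT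
      obtain ⟨α, hα⟩ := exists_al hz4
      set a := s₀.1 with ha
      set v : (U → F) × (J → F) := ∑ t : Fin (k a), c ⟨a, t⟩ • z ⟨a, t⟩ with hv
      have hvS : v ∈ SolA d i a α := by
        refine Submodule.sum_mem _ fun t _ => Submodule.smul_mem _ _ ?_
        rw [mem_SolA]
        exact ⟨hz1 ⟨a, t⟩, hα ⟨a, t⟩⟩
      have hv0 : v ≠ 0 := by
        intro h0
        have h1 := Fintype.linearIndependent_iff.1 (hz2 a) (fun t => c ⟨a, t⟩) h0 s₀.2
        exact hs₀ h1
      have hdp : ∀ w : Ix k → F, dp c w = ∑ t : Fin (k a), c ⟨a, t⟩ * w ⟨a, t⟩ := by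
        intro w
        unfold dp
        rw [Fintype.sum_sigma, Finset.sum_eq_single a]
        · intro j _ hj
          refine Finset.sum_eq_zero fun t _ => ?_
          have : c ⟨j, t⟩ = 0 := by
            by_contra h
            exact hj (hone j (mem_filter.2 ⟨mem_univ _, t, h⟩))
          rw [this, zero_mul]
        · intro h
          exact absurd (mem_univ _) h
      have hv2 : ∀ l, v.2 l = 0 := by
        intro l
        have h1 : yf z l ∈ W := by
          rw [← hz3]
          exact Submodule.subset_span ⟨l, Set.mem_univ _, rfl⟩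
        have h2 := hcW _ h1
        rw [hdp] at h2
        rw [← h2, hv, Prod.snd_sum, Finset.sum_apply]
        refine Finset.sum_congr rfl fun t _ => ?_
        rfl
      rw [mem_SolA] at hvS
      obtain ⟨b1, b5⟩ := hvS
      refine hv0 (hg.nC a v b1 (funext hv2) fun k' hk' => ?_)
      have h5 := b5 k' hk'
      simp only [hv2, add_zero, mul_zero, Finset.sum_const_zero] at h5
      exact h5
    rw [hemp, Finset.card_empty, Nat.cast_zero, zero_mul]
    exact hR
  · -- two blocks
    push Not at hone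
    obtain ⟨j, hj, hji⟩ := hone
    have hi : s₀.1 ∈ Ib k c := mem_filter.2 ⟨mem_univ _, s₀.2, hs₀⟩
    set a := s₀.1 with ha'
    set sep := (univ.erase i).filter fun l => d.g a l + d.g j l ≠ 0 with hsep
    have hsepR : ∀ l ∈ sep, l ∈ univ.erase i ∧ d.g a l + d.g j l ≠ 0 := by
      intro l hl
      rw [hsep, mem_filter] at hl
      exact hl
    have hnon : ∀ l ∈ sep, ∃ w ∈ W, dp (clA d k c l) w ≠ 0 := by
      intro l hl
      by_contra hcon
      push Not at hcon
      obtain ⟨-, h1⟩ := hsepR l hl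
      have hsub : Ib k (clA d k c l) ⊆ Ib k c := by
        intro t ht
        rw [Ib, mem_filter] at ht
        obtain ⟨-, t', ht'⟩ := ht
        rw [Ib, mem_filter]
        exact ⟨mem_univ _, t', left_ne_zero_of_mul ht'⟩
      have key : ∀ p q : Fin M, p ∈ Ib k c → q ∈ Ib k c → d.g p l ≠ 0 → d.g q l = 0 → False := by
        intro p q hp hq hp1 hq0
        obtain ⟨-, t, ht⟩ := mem_filter.1 hp
        have hne : clA d k c l ≠ 0 := by
          intro h0
          have := congrFun h0 ⟨p, t⟩
          exact (mul_ne_zero ht hp1) this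
        have h2 := hmin (clA d k c l) (mem_filter.2 ⟨mem_univ _, hne, hcon⟩)
        have h3 : Ib k (clA d k c l) ⊂ Ib k c := by
          refine Finset.ssubset_iff_subset_ne.2 ⟨hsub, fun h => ?_⟩
          rw [← h] at hq
          obtain ⟨-, t', ht'⟩ := mem_filter.1 hq
          apply ht'
          show c ⟨q, t'⟩ * d.g q l = 0
          rw [hq0, mul_zero]
        have h4 := Finset.card_lt_card h3
        omega
      rcases eq_or_ne (d.g a l) 0 with h0 | h0
      · refine key j a hj hi ?_ h0
        intro h2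
        rw [h0, h2, add_zero] at h1
        exact h1 rfl
      · rcases eq_or_ne (d.g j l) 0 with h2 | h2
        · exact key a j hi hj h0 h2
        · apply h1
          rw [f2 h0, f2 h2]
          decide
    have h := cnt_le (U := U) (J := J) (S := Ix k) (fun z => z ∈ T)
      (fun x l => if l ∈ sep then Hf W (clA d k c l) (blA d k c l x)
        else if l ∈ univ.erase i then Wf W else {0})
      ((Nat.card W : ℝ) ^ (univ.erase i).card * (1 / 2) ^ sep.card)
      (by
        intro z hzT l
        obtain ⟨⟨hz1, hz2⟩, hz3, hz4⟩ := hT z hzT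
        have hyW : ∀ l, yf z l ∈ W := by
          intro l
          rw [← hz3]
          exact Submodule.subset_span ⟨l, Set.mem_univ _, rfl⟩
        obtain ⟨α, hα⟩ := exists_al hz4
        split_ifs with h1 h2
        · exact mem_Hf.2 ⟨hyW l, comb d i k c hα (fun l => hcW _ (hyW l)) (hsepR l h1).1⟩
        · exact mem_Wf.2 (hyW l)
        · rw [mem_singleton]
          have : l = i := by
            by_contra hne
            exact h2 (mem_erase.2 ⟨hne, mem_univ _⟩)
          rw [this]
          exact yf_zero hg hz1)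
      (by
        intro x
        have e1 : (Nat.card W : ℝ) ^ (univ.erase i).card * (1 / 2) ^ sep.card =
            ∏ l : J, ((if l ∈ univ.erase i then (Nat.card W : ℝ) else 1) *
              (if l ∈ sep then (1 / 2 : ℝ) else 1)) := by
          rw [Finset.prod_mul_distrib, Finset.prod_ite_mem, Finset.prod_ite_mem,
            Finset.univ_inter, Finset.univ_inter, Finset.prod_const, Finset.prod_const]
        rw [e1]
        refine Finset.prod_le_prod (fun l _ => Nat.cast_nonneg _) fun l _ => ?_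
        by_cases h1 : l ∈ sep
        · rw [if_pos h1, if_pos h1, if_pos (hsepR l h1).1]
          have := card_Hf W (clA d k c l) (blA d k c l x) (hnon l h1)
          linarith
        · rw [if_neg h1, if_neg h1, mul_one]
          by_cases h2 : l ∈ univ.erase i
          · rw [if_pos h2, if_pos h2]
            exact (card_Wf W).le
          · rw [if_neg h2, if_neg h2]
            simp)
    replace h : (T.card : ℝ) ≤ 2 ^ (Fintype.card (Ix k) * Fintype.card U) *
          ((Nat.card W : ℝ) ^ (univ.erase i).card * (1 / 2) ^ sep.card) := by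
      refine le_trans (le_of_eq ?_) h
      refine congrArg Nat.cast (congrArg Finset.card ?_)
      ext z
      simp only [mem_filter, mem_univ, true_and]
    have hV2 : (1 / 2 : ℝ) ^ sep.card * 2 ^ V ≤ 1 := by
      have h1 : (1 / 2 : ℝ) ^ sep.card ≤ (1 / 2) ^ V :=
        pow_le_pow_of_le_one (by norm_num) (by norm_num) (hV a j (Ne.symm hji))
      calc _ ≤ (1 / 2 : ℝ) ^ V * 2 ^ V := mul_le_mul_of_nonneg_right h1 (by positivity)
        _ = 1 := by rw [← mul_pow]; norm_num
    have hcd : (univ.erase i).card = Fintype.card J - 1 := by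
      rw [Finset.card_erase_of_mem (mem_univ _), card_univ]
    rw [hcd] at h
    calc _ ≤ (2 ^ (Fintype.card (Ix k) * Fintype.card U) *
          ((Nat.card W : ℝ) ^ (Fintype.card J - 1) * (1 / 2) ^ sep.card)) * 2 ^ V :=
          mul_le_mul_of_nonneg_right h (by positivity)
      _ = (2 ^ (Fintype.card (Ix k) * Fintype.card U) * (Nat.card W : ℝ) ^ (Fintype.card J - 1)) *
          ((1 / 2) ^ sep.card * 2 ^ V) := by ring
      _ ≤ _ := mul_le_of_le_one_right hR hV2

end

end Pool.Agent.NH4.XG.Mom
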